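import Pool.Agent.Helper41_MWEN.Stmts

/-!
# Row CPR of block MWE: the class property

If the exchange fails, block `1` of every word of the class of `Ex R c X` is `x h y` with all
letters of `c` in `h`.
-/

set_option autoImplicit false

namespace Pool.Agent.MWEN.H19

open Pool.Agent.Helper14_MV Pool.Agent.Helper2_MV Pool.Agent.MVD Pool.Agent.MWE

/-! ### lists -/

theorem sfr_filter {p : ℕ → Bool} {l : List ℕ} (h : SFr l) : SFr (l.filter p) :=
  fun a ha => h a (List.mem_of_mem_filter ha)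

theorem sfr_append {l l' : List ℕ} (h : SFr l) (h' : SFr l') : SFr (l ++ l') := by
  intro a ha
  rcases List.mem_append.mp ha with h1 | h1
  · exact h a h1
  · exact h' a h1

theorem sfr_cons {a : ℕ} {l : List ℕ} (h0 : a % 3 ≠ 2) (h : SFr l) : SFr (a :: l) := by
  intro b hb
  rcases List.mem_cons.mp hb with h1 | h1
  · subst h1
    exact h0
  · exact h b h1

theorem sfr_nil : SFr [] := by
  intro a ha
  exact absurd ha List.not_mem_nil

theorem sfr_xx {X : List ℕ} (h : XX X) : SFr X := by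
  rcases h with h | h
  · subst h
    exact sfr_cons (by norm_num) (sfr_cons (by norm_num) sfr_nil)
  · subst h
    exact sfr_cons (by norm_num) (sfr_cons (by norm_num) sfr_nil)

theorem fxy_nil {l : List ℕ} (h0 : 0 ∉ l) (h3 : 3 ∉ l) : fxy l = [] := by
  unfold fxy
  rw [List.filter_eq_nil_iff]
  intro a ha
  simp only [decide_eq_true_eq, not_or]
  exact ⟨fun h => h0 (h ▸ ha), fun h => h3 (h ▸ ha)⟩

theorem dxy_self {l : List ℕ} (h0 : 0 ∉ l) (h3 : 3 ∉ l) : dxy l = l := by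
  unfold dxy
  rw [List.filter_eq_self]
  intro a ha
  simp only [decide_eq_true_eq]
  exact ⟨fun h => h0 (h ▸ ha), fun h => h3 (h ▸ ha)⟩

theorem dx_self {l : List ℕ} (h0 : 0 ∉ l) : dx l = l := by
  unfold dx
  rw [List.filter_eq_self]
  intro a ha
  simp only [decide_eq_true_eq]
  exact fun h => h0 (h ▸ ha)

theorem dy_self {l : List ℕ} (h3 : 3 ∉ l) : dy l = l := by
  unfold dy
  rw [List.filter_eq_self]
  intro a ha
  simp only [decide_eq_true_eq]
  exact fun h => h3 (h ▸ ha)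

theorem fxy_append (l l' : List ℕ) : fxy (l ++ l') = fxy l ++ fxy l' := List.filter_append _ _

theorem dxy_append (l l' : List ℕ) : dxy (l ++ l') = dxy l ++ dxy l' := List.filter_append _ _

theorem dx_append (l l' : List ℕ) : dx (l ++ l') = dx l ++ dx l' := List.filter_append _ _

theorem dy_append (l l' : List ℕ) : dy (l ++ l') = dy l ++ dy l' := List.filter_append _ _

theorem fxy_0 (l : List ℕ) : fxy (0 :: l) = 0 :: fxy l := rfl

theorem fxy_3 (l : List ℕ) : fxy (3 :: l) = 3 :: fxy l := rfl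

theorem dx_0 (l : List ℕ) : dx (0 :: l) = dx l := rfl

theorem dx_3 (l : List ℕ) : dx (3 :: l) = 3 :: dx l := rfl

theorem dy_0 (l : List ℕ) : dy (0 :: l) = 0 :: dy l := rfl

theorem dy_3 (l : List ℕ) : dy (3 :: l) = dy l := rfl

theorem dxy_0 (l : List ℕ) : dxy (0 :: l) = dxy l := rfl

theorem dxy_3 (l : List ℕ) : dxy (3 :: l) = dxy l := rfl

/-- a letter with one occurrence -/
theorem split1 {l : List ℕ} {a : ℕ} (h : l.count a = 1) :
    ∃ D1 D2, l = D1 ++ a :: D2 ∧ a ∉ D1 ∧ a ∉ D2 := by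
  have hm : a ∈ l := by
    rw [← List.count_pos_iff]
    omega
  obtain ⟨D1, D2, hD⟩ := List.append_of_mem hm
  subst hD
  rw [List.count_append, List.count_cons_self] at h
  exact ⟨D1, D2, rfl, List.count_eq_zero.mp (by omega), List.count_eq_zero.mp (by omega)⟩

/-- two letters with one occurrence -/
theorem split2 {l : List ℕ} (h0 : l.count 0 = 1) (h3 : l.count 3 = 1) :
    (∃ A g C, l = A ++ 0 :: (g ++ 3 :: C) ∧ 0 ∉ A ∧ 0 ∉ g ∧ 0 ∉ C ∧ 3 ∉ A ∧ 3 ∉ g ∧ 3 ∉ C) ∨
    (∃ A g C, l = A ++ 3 :: (g ++ 0 :: C) ∧ 0 ∉ A ∧ 0 ∉ g ∧ 0 ∉ C ∧ 3 ∉ A ∧ 3 ∉ g ∧ 3 ∉ C) := by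
  obtain ⟨D1, D2, hD, hn1, hn2⟩ := split1 h0
  have hm : 3 ∈ l := by
    rw [← List.count_pos_iff]
    omega
  rw [hD, List.count_append, List.count_cons_of_ne (by norm_num)] at h3
  rw [hD] at hm
  rcases List.mem_append.mp hm with hm | hm
  · right
    have hc : 0 < D1.count 3 := List.count_pos_iff.mpr hm
    obtain ⟨A, g, hA, hm1, hm2⟩ := split1 (l := D1) (a := 3) (by omega)
    refine ⟨A, g, D2, ?_, ?_, ?_, hn2, hm1, hm2, List.count_eq_zero.mp (by omega)⟩
    · rw [hD, hA]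
      simp only [List.append_assoc, List.cons_append]
    · intro h
      exact hn1 (hA ▸ List.mem_append_left _ h)
    · intro h
      exact hn1 (hA ▸ List.mem_append_right _ (List.mem_cons_of_mem _ h))
  · left
    rcases List.mem_cons.mp hm with hm | hm
    · exact absurd hm (by norm_num)
    have hc : 0 < D2.count 3 := List.count_pos_iff.mpr hm
    obtain ⟨g, C, hA, hm1, hm2⟩ := split1 (l := D2) (a := 3) (by omega)
    refine ⟨D1, g, C, ?_, hn1, ?_, ?_, List.count_eq_zero.mp (by omega), hm1, hm2⟩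
    · rw [hD, hA]
    · intro h
      exact hn2 (hA ▸ List.mem_append_left _ h)
    · intro h
      exact hn2 (hA ▸ List.mem_append_right _ (List.mem_cons_of_mem _ h))

theorem can_ne {m : ℕ} {c : List ℕ} (h : Can m c) {a : ℕ} (ha : a ∈ c) : a ≠ 0 ∧ a ≠ 3 := by
  rcases h.lo a ha with ⟨d, -, hd⟩ | ⟨-, h6, -⟩
  · omega
  · omega

/-! ### the exchange -/

theorem tr {β : FIC} {a b c : List ℕ} (h : RR β a b) (h' : RR β b c) : RR β a c :=
  β.trans h h'

theorem up_0 (B : ℕ → List ℕ) (D : List ℕ) : up B 0 D 0 = D := by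
  unfold up
  rw [if_pos rfl]

theorem up_ne (B : ℕ → List ℕ) (D : List ℕ) {r : ℕ} (hr : r ≠ 0) : up B 0 D r = B r := by
  unfold up
  rw [if_neg hr]

theorem sfr_up {B : ℕ → List ℕ} {D : List ℕ} (h : ∀ r, SFr (B r)) (hD : SFr D) :
    ∀ r, SFr (up B 0 D r) := by
  intro r
  unfold up
  split_ifs
  · exact hD
  · exact h r

section

variable {β : FIC} {m : ℕ} {R c : List ℕ}

/-- the exchange by `XCH`, `x` and `y` at the right end of block `0` -/
theorem ee0 (h1 : BasStmt) (h4 : XchStmt) (S : Sit β m R c) {P Q : ℕ → List ℕ}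
    {e D A g C : List ℕ} (hsP : ∀ r, SFr (P r)) (hse : SFr e)
    (hP : RR β (Ex R c [0, 3]) (Bw R P ++ e)) (hQ : RR β (Ex R c [3, 0]) (Bw R Q ++ e))
    (hPQ : ∀ r, r ≠ 0 → P r = Q r) (hP0 : P 0 = D ++ [0, 3]) (hQ0 : Q 0 = D ++ [3, 0])
    (hP1 : P 1 = A ++ 0 :: (g ++ 3 :: C)) (hor : (∃ a ∈ c, a ∉ g) ∨ A ≠ [] ∨ C ≠ []) :
    EE β R c := by
  have hB := (h1 β m R c [0, 3] S.i3 S.can S.pR (Or.inl rfl)).2 P e hsP hse hP
  have hX := h4 β m R c P e S.i2 S.can S.ih S.pR S.b01 hB D [] A g C hP0 hP1 hor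
  have hU : up P 0 (D ++ 3 :: 0 :: []) = Q := by
    funext r
    by_cases hr : r = 0
    · subst hr
      rw [up_0, hQ0]
    · rw [up_ne _ _ hr, hPQ r hr]
  rw [hU] at hX
  exact tr (tr hP hX) hQ.symm

/-- the exchange, with arbitrary blocks `0` -/
theorem ee1 (h1 : BasStmt) (h3 : PmvStmt) (h4 : XchStmt) (S : Sit β m R c) {P Q : ℕ → List ℕ}
    {e D A g C : List ℕ} (hsP : ∀ r, SFr (P r)) (hsQ : ∀ r, SFr (Q r)) (hse : SFr e)
    (hP : RR β (Ex R c [0, 3]) (Bw R P ++ e)) (hQ : RR β (Ex R c [3, 0]) (Bw R Q ++ e))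
    (hPQ : ∀ r, r ≠ 0 → P r = Q r) (hsD : SFr D) (hfD : fxy D = [])
    (hP0 : (P 0).Perm (D ++ [0, 3])) (hQ0 : (Q 0).Perm (D ++ [3, 0])) (hfP : fxy (P 0) = [0, 3])
    (hfQ : fxy (Q 0) = [3, 0]) (hP1 : P 1 = A ++ 0 :: (g ++ 3 :: C)) (hfu : ∀ a ∈ c, a ∈ P 1)
    (hor : (∃ a ∈ c, a ∉ g) ∨ A ≠ [] ∨ C ≠ []) : EE β R c := by
  have hBP := (h1 β m R c [0, 3] S.i3 S.can S.pR (Or.inl rfl)).2 P e hsP hse hP
  have hBQ := (h1 β m R c [3, 0] S.i3 S.can S.pR (Or.inr rfl)).2 Q e hsQ hse hQ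
  have hfP' : Bf m R c P e := { hBP with fu := hfu }
  have hfQ' : Bf m R c Q e := { hBQ with fu := fun a ha => hPQ 1 (by norm_num) ▸ hfu a ha }
  have hmP := h3 β m R c P e S.can S.ih S.pR hfP' (up P 0 (D ++ [0, 3])) e
    (by
      intro r _
      by_cases hr : r = 0
      · subst hr
        rw [up_0]
        exact hP0.symm
      · rw [up_ne _ _ hr])
    (up_ne _ _ (by norm_num))
    (by rw [up_0, hfP, fxy_append, hfD]; rfl) (List.Perm.refl _)
  have hmQ := h3 β m R c Q e S.can S.ih S.pR hfQ' (up Q 0 (D ++ [3, 0])) e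
    (by
      intro r _
      by_cases hr : r = 0
      · subst hr
        rw [up_0]
        exact hQ0.symm
      · rw [up_ne _ _ hr])
    (up_ne _ _ (by norm_num))
    (by rw [up_0, hfQ, fxy_append, hfD]; rfl) (List.Perm.refl _)
  exact ee0 h1 h4 S (P := up P 0 (D ++ [0, 3])) (Q := up Q 0 (D ++ [3, 0]))
    (sfr_up hsP (sfr_append hsD (sfr_xx (Or.inl rfl)))) hse (tr hP hmP) (tr hQ hmQ)
    (by
      intro r hr
      rw [up_ne _ _ hr, up_ne _ _ hr]
      exact hPQ r hr)
    (up_0 _ _) (up_0 _ _) (by rw [up_ne _ _ (by norm_num)]; exact hP1) hor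

/-- the letter `y` is deleted and inserted again -/
theorem eey (h1 : BasStmt) (h2 : TraStmt) (h3 : PmvStmt) (h4 : XchStmt) (S : Sit β m R c)
    {X : List ℕ} (hX : XX X) {B : ℕ → List ℕ} {e A g : List ℕ} (hsB : ∀ r, SFr (B r))
    (hse : SFr e) (hB : RR β (Ex R c X) (Bw R B ++ e)) (hfu : ∀ a ∈ c, a ∈ B 1)
    (hB1 : dy (B 1) = A ++ 0 :: g) (hor : (∃ a ∈ c, a ∉ g) ∨ A ≠ []) : EE β R c := by
  have hBs := (h1 β m R c X S.i3 S.can S.pR hX).2 B e hsB hse hB
  obtain ⟨-, hP, hQ, -, -⟩ := h2 β m R c X B e S.can S.pR hX hBs hB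
  have hc0 : (dy (B 0)).count 0 = 1 := by
    unfold dy
    rw [List.count_filter (by decide)]
    exact hBs.x0
  have h3n : 3 ∉ dy (B 0) := by
    intro h
    unfold dy at h
    have := List.of_mem_filter h
    simp at this
  obtain ⟨D1, D2, hD, hn1, hn2⟩ := split1 hc0
  rw [hD] at h3n
  have hm1 : 3 ∉ D1 := fun h => h3n (List.mem_append_left _ h)
  have hm2 : 3 ∉ D2 := fun h => h3n (List.mem_append_right _ (List.mem_cons_of_mem _ h))
  have hsdy : SFr (dy (B 0)) := sfr_filter (hsB 0)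
  have hsD : SFr (D1 ++ D2) := by
    rw [hD] at hsdy
    intro a ha
    apply hsdy a
    rcases List.mem_append.mp ha with h | h
    · exact List.mem_append_left _ h
    · exact List.mem_append_right _ (List.mem_cons_of_mem _ h)
  have hsdy1 : SFr (dy (B 1)) := sfr_filter (hsB 1)
  have h3s : SFr [3] := sfr_cons (by norm_num) sfr_nil
  have e0 : ty1 B 0 = dy (B 0) ++ [3] := rfl
  have e1 : ty1 B 1 = dy (B 1) ++ [3] := rfl
  have f0 : ty2 B 0 = 3 :: dy (B 0) := rfl
  have hfD : fxy (D1 ++ D2) = [] := by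
    rw [fxy_append, fxy_nil hn1 hm1, fxy_nil hn2 hm2]
    rfl
  refine ee1 h1 h3 h4 S (P := ty1 B) (Q := ty2 B) (e := e) (D := D1 ++ D2) (A := A) (g := g)
    (C := []) ?_ ?_ hse hP hQ ?_ hsD hfD ?_ ?_ ?_ ?_ ?_ ?_ ?_
  · intro r
    unfold ty1
    split_ifs
    · exact sfr_append hsdy h3s
    · exact sfr_append hsdy1 h3s
    · exact hsB r
  · intro r
    unfold ty2
    split_ifs
    · exact sfr_cons (by norm_num) hsdy
    · exact sfr_append hsdy1 h3s
    · exact hsB r
  · intro r hr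
    unfold ty1 ty2
    rw [if_neg hr, if_neg hr]
  · rw [e0, hD]
    simp only [List.append_assoc, List.cons_append]
    refine List.Perm.append_left D1 ?_
    exact (List.perm_middle (l₁ := D2) (l₂ := [3]) (a := 0)).symm
  · rw [f0, hD]
    have h5 : (3 :: (D1 ++ 0 :: D2)).Perm (3 :: 0 :: (D1 ++ D2)) :=
      List.Perm.cons 3 List.perm_middle
    exact h5.trans (List.perm_append_comm (l₁ := [3, 0]) (l₂ := D1 ++ D2))
  · rw [e0, hD, fxy_append, fxy_append, fxy_0, fxy_nil hn1 hm1, fxy_nil hn2 hm2]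
    rfl
  · rw [f0, hD, fxy_3, fxy_append, fxy_0, fxy_nil hn1 hm1, fxy_nil hn2 hm2]
    rfl
  · rw [e1, hB1]
    simp only [List.append_assoc, List.cons_append]
  · intro a ha
    rw [e1]
    refine List.mem_append_left _ ?_
    unfold dy
    rw [List.mem_filter]
    exact ⟨hfu a ha, decide_eq_true (can_ne S.can ha).2⟩
  · rcases hor with h | h
    · exact Or.inl h
    · exact Or.inr (Or.inl h)

/-- the letter `x` is deleted and inserted again -/
theorem eex (h1 : BasStmt) (h2 : TraStmt) (h3 : PmvStmt) (h4 : XchStmt) (S : Sit β m R c)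
    {X : List ℕ} (hX : XX X) {B : ℕ → List ℕ} {e g C : List ℕ} (hsB : ∀ r, SFr (B r))
    (hse : SFr e) (hB : RR β (Ex R c X) (Bw R B ++ e)) (hfu : ∀ a ∈ c, a ∈ B 1)
    (hB1 : dx (B 1) = g ++ 3 :: C) (hor : (∃ a ∈ c, a ∉ g) ∨ C ≠ []) : EE β R c := by
  have hBs := (h1 β m R c X S.i3 S.can S.pR hX).2 B e hsB hse hB
  obtain ⟨-, -, -, hP, hQ⟩ := h2 β m R c X B e S.can S.pR hX hBs hB
  have hc0 : (dx (B 0)).count 3 = 1 := by
    unfold dx
    rw [List.count_filter (by decide)]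
    exact hBs.y0
  have h0n : 0 ∉ dx (B 0) := by
    intro h
    unfold dx at h
    have := List.of_mem_filter h
    simp at this
  obtain ⟨D1, D2, hD, hn1, hn2⟩ := split1 hc0
  rw [hD] at h0n
  have hm1 : 0 ∉ D1 := fun h => h0n (List.mem_append_left _ h)
  have hm2 : 0 ∉ D2 := fun h => h0n (List.mem_append_right _ (List.mem_cons_of_mem _ h))
  have hsdx : SFr (dx (B 0)) := sfr_filter (hsB 0)
  have hsD : SFr (D1 ++ D2) := by
    rw [hD] at hsdx
    intro a ha
    apply hsdx a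
    rcases List.mem_append.mp ha with h | h
    · exact List.mem_append_left _ h
    · exact List.mem_append_right _ (List.mem_cons_of_mem _ h)
  have hsdx1 : SFr (dx (B 1)) := sfr_filter (hsB 1)
  have h0s : SFr [0] := sfr_cons (by norm_num) sfr_nil
  have e0 : tx1 B 0 = 0 :: dx (B 0) := rfl
  have e1 : tx1 B 1 = 0 :: dx (B 1) := rfl
  have f0 : tx2 B 0 = dx (B 0) ++ [0] := rfl
  have hfD : fxy (D1 ++ D2) = [] := by
    rw [fxy_append, fxy_nil hm1 hn1, fxy_nil hm2 hn2]
    rfl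
  refine ee1 h1 h3 h4 S (P := tx1 B) (Q := tx2 B) (e := e) (D := D1 ++ D2) (A := []) (g := g)
    (C := C) ?_ ?_ hse hP hQ ?_ hsD hfD ?_ ?_ ?_ ?_ ?_ ?_ ?_
  · intro r
    unfold tx1
    split_ifs
    · exact sfr_cons (by norm_num) hsdx
    · exact sfr_cons (by norm_num) hsdx1
    · exact hsB r
  · intro r
    unfold tx2
    split_ifs
    · exact sfr_append hsdx h0s
    · exact sfr_cons (by norm_num) hsdx1
    · exact hsB r
  · intro r hr
    unfold tx1 tx2
    rw [if_neg hr, if_neg hr]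
  · rw [e0, hD]
    have h5 : (0 :: (D1 ++ 3 :: D2)).Perm (0 :: 3 :: (D1 ++ D2)) :=
      List.Perm.cons 0 List.perm_middle
    exact h5.trans (List.perm_append_comm (l₁ := [0, 3]) (l₂ := D1 ++ D2))
  · rw [f0, hD]
    simp only [List.append_assoc, List.cons_append]
    refine List.Perm.append_left D1 ?_
    exact (List.perm_middle (l₁ := D2) (l₂ := [0]) (a := 3)).symm
  · rw [e0, hD, fxy_0, fxy_append, fxy_3, fxy_nil hm1 hn1, fxy_nil hm2 hn2]
    rfl
  · rw [f0, hD, fxy_append, fxy_append, fxy_3, fxy_nil hm1 hn1, fxy_nil hm2 hn2]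
    rfl
  · rw [e1, hB1]
    rfl
  · intro a ha
    rw [e1]
    refine List.mem_cons_of_mem _ ?_
    unfold dx
    rw [List.mem_filter]
    exact ⟨hfu a ha, decide_eq_true (can_ne S.can ha).1⟩
  · rcases hor with h | h
    · exact Or.inl h
    · exact Or.inr (Or.inr h)

/-- all letters of the chain are in block `1` -/
theorem fu_all (h1 : BasStmt) (h2 : TraStmt) (h4 : XchStmt) (S : Sit β m R c)
    {X : List ℕ} (hX : XX X) {B : ℕ → List ℕ} {e : List ℕ} (hsB : ∀ r, SFr (B r))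
    (hse : SFr e) (hB : RR β (Ex R c X) (Bw R B ++ e)) : ∀ a ∈ c, a ∈ B 1 := by
  intro a ha
  by_contra hn
  have hBs := (h1 β m R c X S.i3 S.can S.pR hX).2 B e hsB hse hB
  obtain ⟨hT, -, -, -, -⟩ := h2 β m R c X B e S.can S.pR hX hBs hB
  have h03 : SFr [0, 3] := sfr_xx (Or.inl rfl)
  have h3s : SFr [3] := sfr_cons (by norm_num) sfr_nil
  apply S.no
  refine ee0 h1 h4 S (P := tb B [0, 3]) (Q := tb B [3, 0]) (e := e) (D := dxy (B 0)) (A := [])
    (g := dxy (B 1)) (C := []) ?_ hse (hT _ (Or.inl rfl)) (hT _ (Or.inr rfl)) ?_ rfl rfl rfl ?_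
  · intro r
    unfold tb
    split_ifs
    · exact sfr_append (sfr_filter (hsB 0)) h03
    · exact sfr_cons (by norm_num) (sfr_append (sfr_filter (hsB 1)) h3s)
    · exact hsB r
  · intro r hr
    unfold tb
    rw [if_neg hr, if_neg hr]
  · left
    refine ⟨a, ha, fun h => hn ?_⟩
    exact List.mem_of_mem_filter h

/-- the form of block `1` -/
theorem b1_all (h1 : BasStmt) (h2 : TraStmt) (h3 : PmvStmt) (h4 : XchStmt) (S : Sit β m R c)
    {X : List ℕ} (hX : XX X) {B : ℕ → List ℕ} {e : List ℕ} (hsB : ∀ r, SFr (B r))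
    (hse : SFr e) (hB : RR β (Ex R c X) (Bw R B ++ e)) :
    ∃ h, B 1 = 0 :: (h ++ [3]) ∧ 0 ∉ h ∧ 3 ∉ h ∧ (∀ a ∈ c, a ∈ h) := by
  have hBs := (h1 β m R c X S.i3 S.can S.pR hX).2 B e hsB hse hB
  have hfu := fu_all h1 h2 h4 S hX hsB hse hB
  rcases split2 hBs.x1 hBs.y1 with ⟨A, g, C, hE, a0, g0, c0, a3, g3, c3⟩ |
    ⟨A, g, C, hE, a0, g0, c0, a3, g3, c3⟩
  · have hy : dy (B 1) = A ++ 0 :: (g ++ C) := by
      rw [hE, dy_append, dy_0, dy_append, dy_3, dy_self a3, dy_self g3, dy_self c3]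
    have hA : A = [] := by
      by_contra hA
      exact S.no (eey h1 h2 h3 h4 S hX hsB hse hB hfu hy (Or.inr hA))
    subst hA
    have hx : dx (B 1) = g ++ 3 :: C := by
      rw [hE, dx_append, dx_0, dx_append, dx_3, dx_self g0, dx_self c0]
      rfl
    have hC : C = [] := by
      by_contra hC
      exact S.no (eex h1 h2 h3 h4 S hX hsB hse hB hfu hx (Or.inr hC))
    subst hC
    refine ⟨g, hE, g0, g3, ?_⟩
    intro a ha
    by_contra hn
    exact S.no (eex h1 h2 h3 h4 S hX hsB hse hB hfu hx (Or.inl ⟨a, ha, hn⟩))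
  · exfalso
    have hy : dy (B 1) = (A ++ g) ++ 0 :: C := by
      rw [hE, dy_append, dy_3, dy_append, dy_0, dy_self a3, dy_self g3, dy_self c3]
      simp only [List.append_assoc]
    have hA : A ++ g = [] := by
      by_contra hA
      exact S.no (eey h1 h2 h3 h4 S hX hsB hse hB hfu hy (Or.inr hA))
    obtain ⟨hA1, hA2⟩ := List.append_eq_nil_iff.mp hA
    subst hA1
    subst hA2
    have hx : dx (B 1) = [] ++ 3 :: C := by
      rw [hE]
      simp only [List.nil_append]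
      rw [dx_3, dx_0, dx_self c0]
    obtain ⟨a, ha⟩ := List.exists_mem_of_ne_nil c S.ne
    exact S.no (eex h1 h2 h3 h4 S hX hsB hse hB hfu hx (Or.inl ⟨a, ha, List.not_mem_nil⟩))

end

theorem cpr (h1 : BasStmt) (h2 : TraStmt) (h3 : PmvStmt) (h4 : XchStmt) : CprStmt := by
  intro β m R c X B e S hX hsB hse hB
  have hBs := (h1 β m R c X S.i3 S.can S.pR hX).2 B e hsB hse hB
  have hfu := fu_all h1 h2 h4 S hX hsB hse hB
  obtain ⟨h, hB1, h0, h3', hall⟩ := b1_all h1 h2 h3 h4 S hX hsB hse hB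
  have hBf : Bf m R c B e := { hBs with fu := hfu }
  obtain ⟨hT, -, -, -, -⟩ := h2 β m R c X B e S.can S.pR hX hBs hB
  -- the order of `x`, `y` in block `0`
  have hX0 : XX (fxy (B 0)) := by
    rcases split2 hBs.x0 hBs.y0 with ⟨A, g, C, hE, a0, g0, c0, a3, g3, c3⟩ |
      ⟨A, g, C, hE, a0, g0, c0, a3, g3, c3⟩
    · left
      rw [hE, fxy_append, fxy_0, fxy_append, fxy_3, fxy_nil a0 a3, fxy_nil g0 g3, fxy_nil c0 c3]
      rfl
    · right
      rw [hE, fxy_append, fxy_3, fxy_append, fxy_0, fxy_nil a0 a3, fxy_nil g0 g3, fxy_nil c0 c3]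
      rfl
  have hff : fxy (fxy (B 0)) = fxy (B 0) := by
    unfold fxy
    rw [List.filter_filter]
    simp only [Bool.and_self]
  have hfd : fxy (dxy (B 0)) = [] := by
    apply fxy_nil
    · intro hh
      unfold dxy at hh
      have := List.of_mem_filter hh
      simp at this
    · intro hh
      unfold dxy at hh
      have := List.of_mem_filter hh
      simp at this
  have e0 : tb B (fxy (B 0)) 0 = dxy (B 0) ++ fxy (B 0) := rfl
  have hm := h3 β m R c B e S.can S.ih S.pR hBf (tb B (fxy (B 0))) e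
    (by
      intro r _
      by_cases hr : r = 0
      · subst hr
        rw [e0]
        have hp := List.filter_append_perm (fun a => decide (a ≠ 0 ∧ a ≠ 3)) (B 0)
        refine List.Perm.trans ?_ hp
        refine List.Perm.append_left _ ?_
        unfold fxy
        have : (fun a : ℕ => decide (a = 0 ∨ a = 3)) =
            (fun a : ℕ => !decide (a ≠ 0 ∧ a ≠ 3)) := by
          funext a
          by_cases ha : a = 0
          · simp [ha]
          · by_cases hb : a = 3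
            · simp [hb]
            · simp [ha, hb]
        rw [this]
      · by_cases hr1 : r = 1
        · subst hr1
          have e1 : tb B (fxy (B 0)) 1 = 0 :: (dxy (B 1) ++ [3]) := rfl
          rw [e1, hB1, dxy_0, dxy_append, dxy_self h0 h3']
          have : dxy [3] = [] := rfl
          rw [this, List.append_nil]
        · unfold tb
          rw [if_neg hr, if_neg hr1])
    (by
      have e1 : tb B (fxy (B 0)) 1 = 0 :: (dxy (B 1) ++ [3]) := rfl
      rw [e1, hB1, dxy_0, dxy_append, dxy_self h0 h3']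
      have : dxy [3] = [] := rfl
      rw [this, List.append_nil])
    (by rw [e0, fxy_append, hff, hfd]; rfl) (List.Perm.refl _)
  have hfin : RR β (Ex R c X) (Ex R c (fxy (B 0))) := tr (tr hB hm) (hT _ hX0).symm
  refine { hBf with b1 := ⟨h, hB1, h0, h3', hall, ?_⟩, b0 := ?_ }
  · intro a ha
    have ha1 : a ∈ B 1 := by
      rw [hB1]
      exact List.mem_cons_of_mem _ (List.mem_append_left _ ha)
    have hR1 : 1 ∈ R := S.pR.mem_iff.mpr (List.mem_range.mpr (by omega))
    have ha2 : a ∈ Bw R B ++ e := by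
      refine List.mem_append_left _ ?_
      unfold Bw
      rw [List.mem_flatMap]
      exact ⟨1, hR1, List.mem_append_left _ ha1⟩
    rcases hBs.ct a ha2 (hsB 1 a ha1) with hh | hh | hh
    · exact absurd (hh ▸ ha) h0
    · exact absurd (hh ▸ ha) h3'
    · exact hh
  · rcases hX with hX | hX
    · rcases hX0 with hX0 | hX0
      · rw [hX, hX0]
      · rw [hX, hX0] at hfin
        exact absurd hfin S.no
    · rcases hX0 with hX0 | hX0
      · rw [hX, hX0] at hfin
        exact absurd hfin.symm S.no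
      · rw [hX, hX0]

end Pool.Agent.MWEN.H19
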