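import Pool.Agent.Helper41_MWEN.Stmts

/-!
# Squad MWE, row EEA: canonical chains (assembly of FAB, STA, STB, PNA)
-/

set_option autoImplicit false

namespace Pool.Agent.MWEN.H2

open Pool.Agent.Helper14_MV Pool.Agent.Helper2_MV Pool.Agent.MVD Pool.Agent.MWE

theorem eea (h1 : FabStmt) (h2 : StaStmt) (h3 : StbStmt) (h4 : PnaStmt) : EeaStmt := by
  intro β m R c hmd hS
  obtain ⟨f1, f2, f3⟩ := h1 β m R c hS.can hS.pR hS.no
  refine h4 β (fun s w => Fam β R c s w) (fun s => Fq R s c) hmd (fun s w hf => hf.1) f1 f2 f3 ?_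
  intro s s' hs hs' hck φ M Q t hF
  obtain ⟨t', ht'⟩ := h2 β m R c s s' t M Q φ hS hs hs' hF
  exact ⟨t', ht', h3 β m R c s s' t t' M Q φ hS hs hs' hck hF ht'⟩

end Pool.Agent.MWEN.H2
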