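import Pool.Agent.Helper41_MWEN.Stmts

/-!
# Squad MWE, row MIE: the mirror image
-/

set_option autoImplicit false

namespace Pool.Agent.MWEN.H98

open Pool.Agent.Helper14_MV Pool.Agent.Helper2_MV Pool.Agent.MVD Pool.Agent.MWE

/-- the exchange of the letters `0`, `3` -/
def sw (i : ℕ) : List ℕ := if i = 0 then [3] else if i = 3 then [0] else [i]

theorem rr_mir (β : FIC) (l l' : List ℕ) : RR (mir β) l l' ↔ RR β l.reverse l'.reverse := Iff.rfl

theorem mult_rev {c w : List ℕ} (h : Mult c w) {c' w' : List ℕ} (hc : c' = c.reverse)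
    (hw : w' = w.reverse) : Mult c' w' := by
  subst hc
  subst hw
  intro a ha
  rw [List.count_reverse]
  exact h a (List.mem_reverse.1 ha)

theorem mult_count {c w : List ℕ} (h : Mult c w) {c' w' : List ℕ} (hc : ∀ a ∈ c', a ∈ c)
    (hw : ∀ a, w'.count a = w.count a) : Mult c' w' := by
  intro a ha
  rw [hw]
  exact h a (hc a ha)

/-- the mirror image of `I2` -/
theorem i2_mir {β : FIC} (h : I2 β) : I2 (mir β) := by
  obtain ⟨n, hn, h⟩ := h
  refine ⟨n, hn, ?_⟩
  intro p w w' q x hm
  rw [rr_mir]
  have hm' : Mult (w'.reverse ++ w.reverse)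
      (q.reverse ++ x :: (w'.reverse ++ (w.reverse ++ x :: p.reverse))) :=
    mult_rev hm (by simp) (by simp [List.append_assoc])
  have h1 := h q.reverse w'.reverse w.reverse p.reverse x hm'
  have e1 : (p ++ x :: (w ++ (w' ++ x :: q))).reverse =
      q.reverse ++ x :: (w'.reverse ++ (w.reverse ++ x :: p.reverse)) := by
    simp [List.append_assoc]
  have e2 : (p ++ x :: (w ++ (List.replicate n x ++ (w' ++ x :: q)))).reverse =
      q.reverse ++ x :: (w'.reverse ++ (List.replicate n x ++ (w.reverse ++ x :: p.reverse))) := by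
    simp [List.append_assoc]
  rw [e1, e2]
  exact h1

theorem fc_mir {β : FIC} {c : List ℕ} (h : FC (mir β) c) : ZC β c.reverse := by
  intro p q r x y hm
  have h1 := h r.reverse q.reverse p.reverse y x
    (mult_rev hm (by simp) (by simp [List.append_assoc]))
  rw [rr_mir] at h1
  simpa [List.append_assoc] using h1

theorem mir_zc {β : FIC} {c : List ℕ} (h : ZC β c.reverse) : FC (mir β) c := by
  intro p q r x y hm
  rw [rr_mir]
  have h1 := h r.reverse q.reverse p.reverse y x
    (mult_rev hm rfl (by simp [List.append_assoc]))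
  simpa [List.append_assoc] using h1

theorem zc_mir {β : FIC} {c : List ℕ} (h : ZC (mir β) c) : FC β c.reverse := by
  intro p q r x y hm
  have h1 := h r.reverse q.reverse p.reverse y x
    (mult_rev hm (by simp) (by simp [List.append_assoc]))
  rw [rr_mir] at h1
  simpa [List.append_assoc] using h1

theorem mir_fc {β : FIC} {c : List ℕ} (h : FC β c.reverse) : ZC (mir β) c := by
  intro p q r x y hm
  rw [rr_mir]
  have h1 := h r.reverse q.reverse p.reverse y x
    (mult_rev hm rfl (by simp [List.append_assoc]))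
  simpa [List.append_assoc] using h1

/-- **MIE** -/
theorem mie : MieStmt := by
  intro β
  refine ⟨fun h => ⟨op_modF h.md, ?_, i2_mir h.i2, ?_, ?_⟩,
    fun c => ⟨⟨fc_mir, mir_zc⟩, ⟨zc_mir, mir_fc⟩⟩, fun c => ⟨?_, ?_⟩⟩
  · intro l hl
    have h1 := h.i3 l.reverse hl
    have h2 := congrArg List.reverse h1
    rw [List.reverse_reverse] at h2
    exact h2
  · have h1 := h.rx
    exact RR.sub (β := β) sw h1
  · have h1 := h.lx
    exact RR.sub (β := β) sw h1
  · unfold nd
    rw [List.toFinset_reverse]
  · unfold nr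
    rw [List.toFinset_reverse]
    simp only [List.count_reverse]

end Pool.Agent.MWEN.H98
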