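import Pool.Agent.Helper41_MWEN.Stmts

/-! Squad MWE, row NFH (helper76) -/

set_option autoImplicit false

namespace Pool.Agent.MWEN.H76

open Pool.Agent.Helper14_MV Pool.Agent.Helper2_MV Pool.Agent.MVD Pool.Agent.MWE

theorem up_one (B : ℕ → List ℕ) (D : List ℕ) : up B 1 D 1 = D := by
  unfold up
  rw [if_pos rfl]

theorem sfr_up {B : ℕ → List ℕ} (hB : ∀ r, SFr (B r)) {D : List ℕ} (hD : D.Perm (B 1)) :
    ∀ r, SFr (up B 1 D r) := by
  intro r
  by_cases hr : r = 1
  · subst hr
    rw [up_one]
    intro c hc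
    exact hB 1 c (hD.subset hc)
  · unfold up
    rw [if_neg hr]
    exact hB r

theorem nfh (cpr : CprStmt) (swi : SwiStmt) : NfhStmt := by
  intro β m R c X B e h st hX hB he hr h1
  have G := cpr β m R c X B e st hX hB he hr
  obtain ⟨g, hg, g0, g3, -, -⟩ := G.b1
  have hgh : g = h := by
    have e1 : 0 :: (g ++ [3]) = 0 :: (h ++ [3]) := hg.symm.trans h1
    have e2 : g ++ [3] = h ++ [3] := by injection e1
    exact List.append_cancel_right e2
  subst hgh
  have r0 : 0 ∈ R := st.pR.mem_iff.2 (List.mem_range.2 (by omega))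
  have z0 : 0 ∈ B 0 := List.count_pos_iff.1 (by rw [G.x0]; exact one_pos)
  have z3 : 3 ∈ B 0 := List.count_pos_iff.1 (by rw [G.y0]; exact one_pos)
  constructor
  · intro a h' hh ha
    have a0 : a ≠ 0 := by
      rintro rfl
      exact g0 (by rw [hh]; exact List.mem_cons_self)
    have a3 : a ≠ 3 := by
      rintro rfl
      exact g3 (by rw [hh]; exact List.mem_cons_self)
    have e1 : B 1 = [] ++ 0 :: a :: (h' ++ [3]) := by rw [h1, hh]; rfl
    have s := swi β m R c B e st.can st.ih st.ne st.pR G.toBf [] (h' ++ [3]) 0 a e1 a0.symm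
      (fun hc => hc.2.elim a0 a3) (Or.inl ⟨0, r0, by decide, z0, ha⟩)
    have p1 : ([] ++ a :: 0 :: (h' ++ [3])).Perm (B 1) := by
      rw [e1]
      exact List.Perm.swap _ _ _
    have G' := cpr β m R c X _ e st hX (sfr_up hB p1) he (β.trans hr s)
    obtain ⟨g', hg', -, -, -, -⟩ := G'.b1
    rw [up_one] at hg'
    injection hg' with e2 _
    exact a0 e2
  · intro a h' hh ha
    have a0 : a ≠ 0 := by
      rintro rfl
      exact g0 (by rw [hh]; exact List.mem_append_right _ List.mem_cons_self)
    have a3 : a ≠ 3 := by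
      rintro rfl
      exact g3 (by rw [hh]; exact List.mem_append_right _ List.mem_cons_self)
    have e1 : B 1 = (0 :: h') ++ a :: 3 :: [] := by
      rw [h1, hh, List.append_assoc]
      rfl
    have s := swi β m R c B e st.can st.ih st.ne st.pR G.toBf (0 :: h') [] a 3 e1 a3
      (fun hc => hc.1.elim a0 a3) (Or.inl ⟨0, r0, by decide, ha, z3⟩)
    have p1 : ((0 :: h') ++ 3 :: a :: []).Perm (B 1) := by
      rw [e1]
      exact (List.Perm.swap _ _ _).append_left _
    have G' := cpr β m R c X _ e st hX (sfr_up hB p1) he (β.trans hr s)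
    obtain ⟨g', hg', -, -, -, -⟩ := G'.b1
    rw [up_one] at hg'
    have e2 : ((0 :: h') ++ [3]) ++ [a] = (0 :: g') ++ [3] := by
      rw [List.append_assoc]
      exact hg'
    have e3 := (List.append_inj' e2 rfl).2
    injection e3 with e4 _
    exact a3 e4

end Pool.Agent.MWEN.H76
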