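import Pool.Agent.Helper41_MWEN.Stmts

/-!
# Squad MWE, row RED: reduction to canonical chains (helper16; `ins2` is helper97's proof of INS with
free values of the substitution at the local letters)
-/

set_option autoImplicit false

namespace Pool.Agent.MWEN.H16

open Pool.Agent.Helper14_MV Pool.Agent.Helper2_MV Pool.Agent.MVD Pool.Agent.MWE
open Pool.Agent.MVD.H97 (skel range_two flat_part Bw_append Bw_cons)

theorem ins2 (p q r D : List ℕ) (x y : ℕ) (u : ℕ → List ℕ) (hD : D.Nodup)
    (hmem : ∀ a ∈ D, a ∈ p ∨ a ∈ q ∨ a ∈ r) :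
    ∃ (R : List ℕ) (g : ℕ → List ℕ) (M : List ℕ), R.Perm (List.range (D.length + 2)) ∧ Bfr R 0 1 ∧
    (∀ X L : List ℕ, p ++ (X.flatMap g ++ (q ++ (L.flatMap g ++ r))) =
      M ++ (Eg R X L).flatMap g) ∧ g 0 = [x] ∧ g 3 = [y] ∧
    (∀ e (he : e < D.length), g (3 * e + 1) = [D[e]]) ∧ ∀ j, g (3 * (j + 2)) = u j := by
  set f : ℕ → ℕ := fun e => D.getD e 0 with hf
  have hfe : ∀ e (he : e < D.length), f e = D[e] := by
    intro e he
    rw [hf]
    exact List.getD_eq_getElem D 0 he
  have hinj : ∀ a, a < D.length → ∀ b, b < D.length → f a = f b → a = b := by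
    intro a ha b hb hab
    rw [hfe a ha, hfe b hb] at hab
    exact (List.Nodup.getElem_inj_iff hD).1 hab
  set n := D.length with hn
  -- the three parts
  set E1 := (List.range n).filter (fun e => decide (f e ∈ p)) with hE1
  set E2 := (List.range n).filter (fun e => decide (f e ∉ p ∧ f e ∈ q)) with hE2
  set E3 := (List.range n).filter (fun e => decide (f e ∉ p ∧ f e ∉ q)) with hE3
  have m1 : ∀ e, e ∈ E1 ↔ e < n ∧ f e ∈ p := by
    intro e; rw [hE1, List.mem_filter, List.mem_range, decide_eq_true_iff]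
  have m2 : ∀ e, e ∈ E2 ↔ e < n ∧ (f e ∉ p ∧ f e ∈ q) := by
    intro e; rw [hE2, List.mem_filter, List.mem_range, decide_eq_true_iff]
  have m3 : ∀ e, e ∈ E3 ↔ e < n ∧ (f e ∉ p ∧ f e ∉ q) := by
    intro e; rw [hE3, List.mem_filter, List.mem_range, decide_eq_true_iff]
  have n1 : E1.Nodup := List.nodup_range.filter _
  have n2 : E2.Nodup := List.nodup_range.filter _
  have n3 : E3.Nodup := List.nodup_range.filter _
  obtain ⟨g1, P1, h1, hP1, hp⟩ := skel f p E1 n1
    (fun a ha b hb => hinj a ((m1 a).1 ha).1 b ((m1 b).1 hb).1) (fun e he => ((m1 e).1 he).2)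
  obtain ⟨g2, P2, h2, hP2, hq⟩ := skel f q E2 n2
    (fun a ha b hb => hinj a ((m2 a).1 ha).1 b ((m2 b).1 hb).1) (fun e he => ((m2 e).1 he).2.2)
  obtain ⟨g3, P3, h3, hP3, hr⟩ := skel f r E3 n3
    (fun a ha b hb => hinj a ((m3 a).1 ha).1 b ((m3 b).1 hb).1) (by
      intro e he
      have h4 := (m3 e).1 he
      rcases hmem (f e) (by rw [hfe e h4.1]; exact List.getElem_mem _) with h5 | h5 | h5
      · exact absurd h5 h4.2.1
      · exact absurd h5 h4.2.2
      · exact h5)
  have k1 : ∀ e, e ∈ P1 ↔ e < n ∧ f e ∈ p := fun e => hP1.mem_iff.trans (m1 e)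
  have k2 : ∀ e, e ∈ P2 ↔ e < n ∧ (f e ∉ p ∧ f e ∈ q) := fun e => hP2.mem_iff.trans (m2 e)
  have k3 : ∀ e, e ∈ P3 ↔ e < n ∧ (f e ∉ p ∧ f e ∉ q) := fun e => hP3.mem_iff.trans (m3 e)
  have hall : (P1 ++ (P2 ++ P3)).Perm (List.range n) := by
    rw [List.perm_ext_iff_of_nodup ?_ List.nodup_range]
    · intro e
      rw [List.mem_append, List.mem_append, List.mem_range, k1, k2, k3]
      tauto
    · rw [List.nodup_append']
      refine ⟨hP1.nodup_iff.2 n1, ?_, ?_⟩
      · rw [List.nodup_append']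
        refine ⟨hP2.nodup_iff.2 n2, hP3.nodup_iff.2 n3, ?_⟩
        intro e h5 h6
        exact ((k3 e).1 h6).2.2 ((k2 e).1 h5).2.2
      · intro e h5 h6
        rcases List.mem_append.1 h6 with h7 | h7
        · exact ((k2 e).1 h7).2.1 ((k1 e).1 h5).2
        · exact ((k3 e).1 h7).2.1 ((k1 e).1 h5).2
  set s : ℕ → ℕ := fun e => e + 2 with hs
  set H : ℕ → List ℕ := fun e => if f e ∈ p then h1 e else if f e ∈ q then h2 e else h3 e with hH
  set g : ℕ → List ℕ := fun c => if c = 0 then [x] else if c = 3 then [y] else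
    if c % 3 = 0 then u (c / 3 - 2) else
    if c % 3 = 1 then [f (c / 3)] else if c = 2 then g2 else if c = 5 then g3 else H (c / 3 - 2)
    with hg
  have ga : ∀ e, g (3 * e + 1) = [f e] := by
    intro e
    simp only [hg]
    rw [if_neg (by omega), if_neg (by omega), if_neg (by omega), if_pos (by omega)]
    have : (3 * e + 1) / 3 = e := by omega
    rw [this]
  have gb : ∀ e, g (3 * (e + 2) + 2) = H e := by
    intro e
    simp only [hg]
    rw [if_neg (by omega), if_neg (by omega), if_neg (by omega), if_neg (by omega),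
      if_neg (by omega), if_neg (by omega)]
    have : (3 * (e + 2) + 2) / 3 - 2 = e := by omega
    rw [this]
  have gu : ∀ j, g (3 * (j + 2)) = u j := by
    intro j
    simp only [hg]
    rw [if_neg (by omega), if_neg (by omega), if_pos (by omega)]
    have : 3 * (j + 2) / 3 - 2 = j := by omega
    rw [this]
  have gc : g 2 = g2 := by simp [hg]
  have gd : g 5 = g3 := by simp [hg]
  refine ⟨P1.map s ++ 0 :: (P2.map s ++ 1 :: P3.map s), g, g1, ?_, ?_, ?_, ?_, ?_, ?_, gu⟩
  · rw [range_two]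
    refine List.perm_middle.trans (List.Perm.cons 0 ?_)
    rw [← List.append_assoc]
    refine List.perm_middle.trans (List.Perm.cons 1 ?_)
    rw [List.append_assoc, ← List.map_append, ← List.map_append]
    exact hall.map s
  · exact ⟨P1.map s, P2.map s, P3.map s, rfl⟩
  · intro X L
    unfold Eg
    rw [Bw_append, Bw_cons, Bw_append, Bw_cons, List.flatMap_append, List.flatMap_append,
      List.flatMap_cons, List.flatMap_append, List.flatMap_append, List.flatMap_cons]
    have e1 := flat_part (X := X) (L := L) (h := h1) ga (P := P1) (by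
      intro e he
      rw [gb]
      simp only [hH]
      rw [if_pos ((k1 e).1 he).2])
    have e2 := flat_part (X := X) (L := L) (h := h2) ga (P := P2) (by
      intro e he
      rw [gb]
      simp only [hH]
      rw [if_neg ((k2 e).1 he).2.1, if_pos ((k2 e).1 he).2.2])
    have e3 := flat_part (X := X) (L := L) (h := h3) ga (P := P3) (by
      intro e he
      rw [gb]
      simp only [hH]
      rw [if_neg ((k3 e).1 he).2.1, if_neg ((k3 e).1 he).2.2])
    simp only [hs]
    rw [e1, e2, e3]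
    have z0 : 3 * 0 + 2 = 2 := rfl
    have z1 : 3 * 1 + 2 = 5 := rfl
    rw [z0, z1, gc, gd]
    simp only [↓reduceIte, one_ne_zero]
    nth_rewrite 1 [hp]
    nth_rewrite 1 [hq]
    nth_rewrite 1 [hr]
    simp only [List.append_assoc]
  · simp [hg]
  · simp [hg]
  · intro e he
    rw [ga, hfe e he]

theorem nd_lt {c c' : List ℕ} {a : ℕ} (h : ∀ b ∈ c', b ∈ c) (ha : a ∈ c) (ha' : a ∉ c') :
    nd c' < nd c := by
  apply Finset.card_lt_card
  refine ⟨fun b hb => ?_, fun hs => ha' ?_⟩
  · rw [List.mem_toFinset] at hb ⊢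
    exact h b hb
  · exact List.mem_toFinset.1 (hs (List.mem_toFinset.2 ha))

/-- the last occurrence -/
theorem last_occ {a : ℕ} {c : List ℕ} (h : a ∈ c) :
    ∃ c1 c2, c = c1 ++ a :: c2 ∧ a ∉ c2 := by
  obtain ⟨l, m, h1, h2⟩ := List.eq_append_cons_of_mem (List.mem_reverse.2 h)
  refine ⟨m.reverse, l.reverse, ?_, ?_⟩
  · have h3 := congrArg List.reverse h1
    rw [List.reverse_reverse] at h3
    rw [h3]
    simp
  · rw [List.mem_reverse]
    exact h2

theorem count_map_on {f : ℕ → ℕ} {a : ℕ} {l : List ℕ} (h : ∀ b ∈ l, f b = f a → b = a) :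
    (l.map f).count (f a) = l.count a := by
  induction l with
  | nil => rfl
  | cons b l ih =>
    rw [List.map_cons, List.count_cons, List.count_cons,
      ih (fun c hc => h c (List.mem_cons_of_mem _ hc))]
    congr 1
    by_cases hb : b = a
    · rw [hb]
      simp
    · have h1 : f b ≠ f a := fun e => hb (h b (List.mem_cons_self ..) e)
      simp [hb, h1]

/-- the general case -/
theorem main {β : FIC} {c : List ℕ} (hc0 : c ≠ [])
    (H : ∀ (m : ℕ) (R c' : List ℕ), Can m c' → R.Perm (List.range (m + 2)) → Bfr R 0 1 →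
      c' ≠ [] → nd c' = nd c → nr c' = nr c → EE β R c') (p q r : List ℕ) (x y : ℕ)
    (hM : Mult c (p ++ x :: y :: (q ++ x :: (c ++ y :: r)))) (hxc : x ∉ c) (hyc : y ∉ c) :
    RR β (p ++ x :: y :: (q ++ x :: (c ++ y :: r))) (p ++ y :: x :: (q ++ x :: (c ++ y :: r))) := by
  obtain ⟨D, hD⟩ : ∃ D : List ℕ, D = c.filter (fun a => decide (c.count a = 1)) := ⟨_, rfl⟩
  obtain ⟨U, hU⟩ : ∃ U : List ℕ, U = (c.filter (fun a => decide (2 ≤ c.count a))).dedup :=
    ⟨_, rfl⟩
  have mD : ∀ a, a ∈ D ↔ a ∈ c ∧ c.count a = 1 := by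
    intro a
    rw [hD, List.mem_filter, decide_eq_true_iff]
  have mU : ∀ a, a ∈ U ↔ a ∈ c ∧ 2 ≤ c.count a := by
    intro a
    rw [hU, List.mem_dedup, List.mem_filter, decide_eq_true_iff]
  have hDn : D.Nodup := by
    rw [List.nodup_iff_count_le_one]
    intro a
    by_cases ha : a ∈ D
    · rw [hD]
      refine le_trans (List.Sublist.count_le a List.filter_sublist) ?_
      exact ((mD a).1 ha).2.le
    · rw [List.count_eq_zero_of_not_mem ha]
      exact Nat.zero_le _
  have hmem : ∀ a ∈ D, a ∈ p ∨ a ∈ q ∨ a ∈ r := by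
    intro a ha
    obtain ⟨h1, h2⟩ := (mD a).1 ha
    have h3 := hM a h1
    have hax : x ≠ a := fun e => hxc (e ▸ h1)
    have hay : y ≠ a := fun e => hyc (e ▸ h1)
    rw [List.count_append, List.count_cons_of_ne hax, List.count_cons_of_ne hay,
      List.count_append, List.count_cons_of_ne hax, List.count_append,
      List.count_cons_of_ne hay, h2] at h3
    rw [← List.count_pos_iff, ← List.count_pos_iff, ← List.count_pos_iff]
    omega
  obtain ⟨R, g, M, hR, hb, hI, g0, g3, gD, gU⟩ :=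
    ins2 p q r D x y (fun j => [U.getD j 0]) hDn hmem
  obtain ⟨ρ, hρ⟩ : ∃ ρ : ℕ → ℕ, ρ = fun a => if a ∈ D then 3 * D.idxOf a + 1 else
    3 * (U.idxOf a + 2) := ⟨_, rfl⟩
  have ρD : ∀ a ∈ D, ρ a = 3 * D.idxOf a + 1 := by
    intro a ha
    rw [hρ]
    exact if_pos ha
  have ρU : ∀ a, a ∉ D → ρ a = 3 * (U.idxOf a + 2) := by
    intro a ha
    rw [hρ]
    exact if_neg ha
  have cU : ∀ a ∈ c, a ∉ D → a ∈ U := by
    intro a ha hn
    rw [mU]
    rw [mD] at hn
    have h1 : 0 < c.count a := List.count_pos_iff.2 ha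
    refine ⟨ha, ?_⟩
    by_contra h2
    exact hn ⟨ha, by omega⟩
  have gρ : ∀ a ∈ c, g (ρ a) = [a] := by
    intro a ha
    by_cases h1 : a ∈ D
    · have h2 : D.idxOf a < D.length := List.idxOf_lt_length_iff.2 h1
      rw [ρD a h1, gD _ h2, List.getElem_idxOf]
    · have h2 : U.idxOf a < U.length := List.idxOf_lt_length_iff.2 (cU a ha h1)
      rw [ρU a h1, gU]
      show [U.getD (U.idxOf a) 0] = [a]
      rw [List.getD_eq_getElem U 0 h2, List.getElem_idxOf]
  have ρi : ∀ a ∈ c, ∀ b ∈ c, ρ a = ρ b → a = b := by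
    intro a ha b hb' hab
    have h1 := gρ a ha
    rw [hab, gρ b hb'] at h1
    exact (List.singleton_injective h1).symm
  have cnt : ∀ a ∈ c, (c.map ρ).count (ρ a) = c.count a :=
    fun a ha => count_map_on (fun b hb' => ρi b hb' a ha)
  have flat : (c.map ρ).flatMap g = c := by
    rw [List.flatMap_map]
    have h1 : c.flatMap (fun a => g (ρ a)) = c.flatMap (fun a => [a]) :=
      List.flatMap_congr gρ
    rw [h1]
    exact List.flatMap_singleton' c
  have hcan : Can D.length (c.map ρ) := by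
    constructor
    · intro d hd
      have h1 : D[d] ∈ D := List.getElem_mem _
      obtain ⟨h2, h3⟩ := (mD _).1 h1
      have h4 : ρ D[d] = 3 * d + 1 := by
        rw [ρD _ h1, hDn.idxOf_getElem]
      rw [← h4, cnt _ h2, h3]
    · intro a' ha'
      obtain ⟨a, ha, rfl⟩ := List.mem_map.1 ha'
      by_cases h1 : a ∈ D
      · left
        exact ⟨D.idxOf a, List.idxOf_lt_length_iff.2 h1, ρD a h1⟩
      · right
        rw [cnt a ha, ρU a h1]
        exact ⟨by omega, by omega, ((mU a).1 (cU a ha h1)).2⟩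
  have htf : (c.map ρ).toFinset = c.toFinset.image ρ := by
    ext a
    simp
  have hnd : nd (c.map ρ) = nd c := by
    unfold nd
    rw [htf]
    apply Finset.card_image_of_injOn
    intro a ha b hb' hab
    exact ρi a (List.mem_toFinset.1 ha) b (List.mem_toFinset.1 hb') hab
  have hnr : nr (c.map ρ) = nr c := by
    unfold nr
    have h1 : (c.map ρ).toFinset.filter (fun a => 2 ≤ (c.map ρ).count a) =
        (c.toFinset.filter (fun a => 2 ≤ c.count a)).image ρ := by
      ext a
      rw [Finset.mem_filter, Finset.mem_image, htf, Finset.mem_image]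
      constructor
      · rintro ⟨⟨b, hb1, rfl⟩, hb2⟩
        rw [cnt b (List.mem_toFinset.1 hb1)] at hb2
        exact ⟨b, Finset.mem_filter.2 ⟨hb1, hb2⟩, rfl⟩
      · rintro ⟨b, hb1, rfl⟩
        obtain ⟨hb2, hb3⟩ := Finset.mem_filter.1 hb1
        refine ⟨⟨b, hb2, rfl⟩, ?_⟩
        rw [cnt b (List.mem_toFinset.1 hb2)]
        exact hb3
    rw [h1]
    apply Finset.card_image_of_injOn
    intro a ha b hb' hab
    exact ρi a (List.mem_toFinset.1 (Finset.mem_filter.1 ha).1) b
      (List.mem_toFinset.1 (Finset.mem_filter.1 hb').1) hab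
  have hne : c.map ρ ≠ [] := by
    intro h
    exact hc0 (List.map_eq_nil_iff.1 h)
  have key := H D.length R (c.map ρ) hcan hR hb hne hnd hnr
  have k2 : RR β (M ++ (Eg R [0, 3] (0 :: (c.map ρ ++ [3]))).flatMap g)
      (M ++ (Eg R [3, 0] (0 :: (c.map ρ ++ [3]))).flatMap g) :=
    RR.append (RR.refl M) (RR.sub g key)
  rw [← hI, ← hI] at k2
  have e1 : (0 :: (c.map ρ ++ [3])).flatMap g = x :: (c ++ [y]) := by
    rw [List.flatMap_cons, List.flatMap_append, flat, g0]
    simp [g3]
  rw [e1] at k2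
  simpa [g0, g3] using k2

theorem nr_le {c' c : List ℕ} (h : ∀ u, c'.count u ≤ c.count u) : nr c' ≤ nr c := by
  unfold nr
  apply Finset.card_le_card
  intro u hu
  rw [Finset.mem_filter, List.mem_toFinset] at hu ⊢
  have h1 := h u
  refine ⟨List.count_pos_iff.1 (by omega), by omega⟩

/-- **RED** -/
theorem red : RedStmt := by
  intro β c hIH hc0 H p q r x y hM
  by_cases hxy : x = y
  · rw [hxy]
    exact RR.refl _
  by_cases hx : x ∈ c
  · obtain ⟨c1, c2, rfl, h2⟩ := last_occ hx
    have h3 : nd c2 < nd (c1 ++ x :: c2) :=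
      nd_lt (fun b hb => by simp [hb]) hx h2
    have h4 := (hIH c2 (Or.inr ⟨nr_le (fun u => by
      rw [List.count_append, List.count_cons]
      omega), h3⟩)).1 p (q ++ x :: c1) r x y
    have e : ∀ a b : ℕ, p ++ a :: b :: ((q ++ x :: c1) ++ x :: (c2 ++ y :: r)) =
        p ++ a :: b :: (q ++ x :: ((c1 ++ x :: c2) ++ y :: r)) := by
      intro a b
      simp
    rw [e, e] at h4
    exact h4 (fun a ha => hM a (by simp [ha]))
  by_cases hy : y ∈ c
  · obtain ⟨c1, c2, rfl, h2⟩ := List.eq_append_cons_of_mem hy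
    have h3 : nd c1 < nd (c1 ++ y :: c2) :=
      nd_lt (fun b hb => by simp [hb]) hy h2
    have h4 := (hIH c1 (Or.inr ⟨nr_le (fun u => by
      rw [List.count_append]
      omega), h3⟩)).1 p q (c2 ++ y :: r) x y
    have e : ∀ a b : ℕ, p ++ a :: b :: (q ++ x :: (c1 ++ y :: (c2 ++ y :: r))) =
        p ++ a :: b :: (q ++ x :: ((c1 ++ y :: c2) ++ y :: r)) := by
      intro a b
      simp
    rw [e, e] at h4
    exact h4 (fun a ha => hM a (by simp [ha]))
  exact main hc0 H p q r x y hM hx hy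

end Pool.Agent.MWEN.H16
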