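import Pool.Agent.Helper41_MWEN.Stmts

/-!
# Row STA of squad MWE: the step stays in the family
-/

set_option autoImplicit false

namespace Pool.Agent.MWEN.H86

open Pool.Agent.Helper14_MV Pool.Agent.Helper2_MV Pool.Agent.MVD Pool.Agent.MWE

/-- the separator filter of a block word -/
theorem sta_filt (B : ℕ → List ℕ) (hB : ∀ r, SFr (B r)) : ∀ R : List ℕ,
    (Bw R B).filter (fun a => decide (a % 3 = 2)) = R.map (fun r => 3 * r + 2)
  | [] => by simp [Bw]
  | r :: R => by
    have ih := sta_filt B hB R
    have h1 : (B r).filter (fun a => decide (a % 3 = 2)) = [] := by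
      rw [List.filter_eq_nil_iff]
      intro a ha
      have := hB r a ha
      simpa using this
    have h2 : Bw (r :: R) B = B r ++ ((3 * r + 2) :: Bw R B) := by
      simp [Bw]
    rw [h2, List.filter_append, h1, List.nil_append, List.filter_cons, ih]
    have h3 : (3 * r + 2) % 3 = 2 := by omega
    simp [h3]

theorem sta_filt_nil (l : List ℕ) (h : SFr l) :
    l.filter (fun a => decide (a % 3 = 2)) = [] := by
  rw [List.filter_eq_nil_iff]
  intro a ha
  have := h a ha
  simpa using this

/-- projection of a block word -/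
theorem sta_bw (i j k : ℕ) (B : ℕ → List ℕ) : ∀ R : List ℕ,
    (Bw R B).flatMap (pr i j k) = Bw R (fun r => (B r).flatMap (pr i j k))
  | [] => by simp [Bw]
  | r :: R => by
    have ih := sta_bw i j k B R
    have h2 : ∀ B' : ℕ → List ℕ, Bw (r :: R) B' = B' r ++ ((3 * r + 2) :: Bw R B') := by
      intro B'
      simp [Bw]
    rw [h2, h2, List.flatMap_append, List.flatMap_cons, ih]
    have h3 : pr i j k (3 * r + 2) = [3 * r + 2] := by
      have e1 : (3 * r + 2) % 3 = 2 := by omega
      unfold pr
      rw [e1]
      simp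
    rw [h3]
    simp

/-- the projection of a word without separators has no separators -/
theorem sta_sf (i j k : ℕ) (D : List ℕ) (h : SFr D) : SFr (D.flatMap (pr i j k)) := by
  intro a ha
  rw [List.mem_flatMap] at ha
  obtain ⟨b, hb, hab⟩ := ha
  have h2 := h b hb
  unfold pr at hab
  split_ifs at hab with c1 c2 c3 c4 c5 c6 c7
  all_goals simp at hab
  all_goals omega

theorem sta_fxy (i j k : ℕ) : ∀ D : List ℕ,
    fxy (D.flatMap (pr i j k)) = Xs i j (xl D)
  | [] => by simp [fxy, Xs, xl]
  | a :: D => by
    have ih := sta_fxy i j k D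
    have e1 : fxy ((a :: D).flatMap (pr i j k)) = fxy (pr i j k a) ++ fxy (D.flatMap (pr i j k)) := by
      rw [List.flatMap_cons]
      unfold fxy
      rw [List.filter_append]
    have e2 : Xs i j (xl (a :: D)) =
        (if a % 3 = 0 ∧ a < 12 then (if a / 3 = i then [0] else if a / 3 = j then [3] else [])
          else []) ++ Xs i j (xl D) := by
      unfold Xs xl
      rw [List.filter_cons]
      by_cases h : a % 3 = 0 ∧ a < 12
      · simp [h]
      · rw [if_neg (by simpa using h), if_neg h]
        simp
    have hf : ∀ l : List ℕ, (∀ b ∈ l, b ≠ 0 ∧ b ≠ 3) → fxy l = [] := by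
      intro l hl
      unfold fxy
      rw [List.filter_eq_nil_iff]
      intro b hb
      have := hl b hb
      simp only [decide_eq_true_eq]
      omega
    have key : fxy (pr i j k a) =
        (if a % 3 = 0 ∧ a < 12 then (if a / 3 = i then [0] else if a / 3 = j then [3] else [])
          else []) := by
      by_cases c : a % 3 = 0 ∧ a < 12
      · rw [if_pos c]
        have hpr : pr i j k a = if a = 3 * i then [0] else if a = 3 * j then [3] else [] := by
          unfold pr
          rw [if_pos c.1, if_pos c.2]
        rw [hpr]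
        by_cases c3 : a = 3 * i
        · have c4 : a / 3 = i := by omega
          rw [if_pos c3, if_pos c4]
          rfl
        · have c4 : a / 3 ≠ i := by omega
          rw [if_neg c3, if_neg c4]
          by_cases c5 : a = 3 * j
          · have c6 : a / 3 = j := by omega
            rw [if_pos c5, if_pos c6]
            rfl
          · have c6 : a / 3 ≠ j := by omega
            rw [if_neg c5, if_neg c6]
            rfl
      · rw [if_neg c]
        apply hf
        intro b hb
        unfold pr at hb
        split_ifs at hb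
        all_goals simp at hb
        all_goals omega
    rw [e1, e2, ih, key]

theorem sta_cnt0 (i j : ℕ) : ∀ t : List ℕ, (Xs i j t).count 0 = t.count i
  | [] => by simp [Xs]
  | a :: t => by
    have ih := sta_cnt0 i j t
    have e : Xs i j (a :: t) = (if a = i then [0] else if a = j then [3] else []) ++ Xs i j t := by
      simp [Xs]
    rw [e, List.count_append, ih, List.count_cons]
    by_cases c1 : a = i
    · simp [c1]
      omega
    · by_cases c2 : a = j
      · simp only [if_neg c1, if_pos c2]
        simp [c1]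
      · simp [c1, c2]

theorem sta_cnt3 (i j : ℕ) (hij : i ≠ j) : ∀ t : List ℕ, (Xs i j t).count 3 = t.count j
  | [] => by simp [Xs]
  | a :: t => by
    have ih := sta_cnt3 i j hij t
    have e : Xs i j (a :: t) = (if a = i then [0] else if a = j then [3] else []) ++ Xs i j t := by
      simp [Xs]
    rw [e, List.count_append, ih, List.count_cons]
    by_cases c1 : a = i
    · have c2 : a ≠ j := by omega
      simp only [if_pos c1]
      simp [c2]
    · by_cases c2 : a = j
      · simp only [if_neg c1, if_pos c2]
        simp [c2]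
        omega
      · simp [c1, c2]

/-- length two words with one `0` and one `3` only -/
theorem sta_xx (i j : ℕ) (hij : i ≠ j) (t : List ℕ) (h1 : t.count i = 1) (h2 : t.count j = 1) :
    XX (Xs i j t) := by
  have a0 := sta_cnt0 i j t
  have a3 := sta_cnt3 i j hij t
  rw [h1] at a0
  rw [h2] at a3
  have hm : ∀ a ∈ Xs i j t, a = 0 ∨ a = 3 := by
    intro a ha
    unfold Xs at ha
    rw [List.mem_flatMap] at ha
    obtain ⟨b, _, hb⟩ := ha
    split_ifs at hb
    · left
      simpa using hb
    · right
      simpa using hb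
    · simp at hb
  have hp : (Xs i j t).Perm [0, 3] := by
    rw [List.perm_iff_count]
    intro a
    by_cases c0 : a = 0
    · subst c0
      rw [a0]
      decide
    · by_cases c3 : a = 3
      · subst c3
        rw [a3]
        decide
      · have hn : a ∉ Xs i j t := fun h => by
          rcases hm a h with h | h
          · exact c0 h
          · exact c3 h
        rw [List.count_eq_zero_of_not_mem hn, List.count_eq_zero_of_not_mem (by simp [c0, c3])]
  have hl : (Xs i j t).length = 2 := hp.length_eq
  generalize Xs i j t = X at hp hl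
  match X, hl with
  | [a, b], _ =>
    have ha : a ∈ [0, 3] := hp.subset (by simp)
    have hb : b ∈ [0, 3] := hp.subset (by simp)
    simp only [List.mem_cons, List.not_mem_nil, or_false] at ha hb
    have hnd : [a, b].Nodup := hp.nodup_iff.mpr (by decide)
    have hab : a ≠ b := by
      intro h
      subst h
      simp at hnd
    unfold XX
    rcases ha with rfl | rfl <;> rcases hb with rfl | rfl
    · exact absurd rfl hab
    · left; rfl
    · right; rfl
    · exact absurd rfl hab

theorem sta_perm (t : List ℕ) (h4 : ∀ a ∈ t, a < 4) (h0 : t.count 0 = 1) (h1 : t.count 1 = 1)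
    (h2 : t.count 2 = 1) (h3 : t.count 3 = 1) : t.Perm [0, 1, 2, 3] := by
  rw [List.perm_iff_count]
  intro a
  by_cases c : a < 4
  · interval_cases a
    · rw [h0]; decide
    · rw [h1]; decide
    · rw [h2]; decide
    · rw [h3]; decide
  · rw [List.count_eq_zero_of_not_mem (fun h => c (h4 a h)), List.count_eq_zero_of_not_mem]
    intro h
    simp only [List.mem_cons, List.not_mem_nil, or_false] at h
    omega

/-- Row STA. -/
theorem sta (hDCM : DcmStmt) (hSPL : SplStmt) (hSEP : SepStmt) (hFST : FstStmt) (hCLM : ClmStmt)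
    (hCPR : CprStmt) : StaStmt := by
  intro β m R c s s' t M Q φ hS hs hs' hF
  obtain ⟨U, V1, V2, hU⟩ := hSPL m R c hS.pR hS.b01
  have hsep := hSEP β m R c s t M Q φ hS hs hF
  -- letters of `s` and `L4 c`
  have hsm : ∀ i ∈ s, 3 * i ∈ L4 c := by
    intro i hi
    have := hs.subset hi
    simp only [List.mem_cons, List.not_mem_nil, or_false] at this
    unfold L4
    rcases this with h | h | h | h <;> subst h <;> simp
  have hL4 : ∀ a ∈ L4 c, a % 3 ≠ 2 := by
    intro a ha
    have hcp : ∀ k, ∀ a ∈ cp k c, a % 3 ≠ 2 := by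
      intro k a ha
      unfold cp at ha
      rw [List.mem_map] at ha
      obtain ⟨b, _, hb⟩ := ha
      unfold cl at hb
      split_ifs at hb <;> omega
    unfold L4 at ha
    simp only [List.mem_cons, List.mem_append, List.not_mem_nil, or_false] at ha
    rcases ha with h | h | h | h | h | h | h
    · omega
    · exact hcp 0 a h
    · omega
    · exact hcp 1 a h
    · omega
    · exact hcp 2 a h
    · omega
  have hLF : ∀ a ∈ L4 c, SFr (φ a) := by
    intro a ha
    refine hsep a ?_ (hL4 a ha)
    rw [hU s]
    simp [ha]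
  have hLam : SFr ((L4 c).flatMap φ) := by
    intro a ha
    rw [List.mem_flatMap] at ha
    obtain ⟨b, hb, hab⟩ := ha
    exact hLF b hb a hab
  have hYL : ∀ a ∈ (s.map (fun i => 3 * i)).flatMap φ, a ∈ (L4 c).flatMap φ := by
    intro a ha
    rw [List.mem_flatMap] at ha
    obtain ⟨b, hb, hab⟩ := ha
    rw [List.mem_map] at hb
    obtain ⟨i, hi, rfl⟩ := hb
    rw [List.mem_flatMap]
    exact ⟨_, hsm i hi, hab⟩
  have hYS : SFr ((s.map (fun i => 3 * i)).flatMap φ) := fun a ha => hLam a (hYL a ha)
  have hYY : ((s.map (fun i => 3 * i)).flatMap φ).Perm ((s'.map (fun i => 3 * i)).flatMap φ) :=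
    List.Perm.flatMap_right _ ((hs.trans hs'.symm).map _)
  have hYS' : SFr ((s'.map (fun i => 3 * i)).flatMap φ) := fun a ha => hYS a (hYY.symm.subset ha)
  -- the two words
  have hw : ∀ s : List ℕ, M ++ ((Fq R s c).flatMap φ ++ Q) =
      (M ++ U.flatMap φ) ++ ((s.map (fun i => 3 * i)).flatMap φ ++
        (V1.flatMap φ ++ ((L4 c).flatMap φ ++ (V2.flatMap φ ++ Q)))) := by
    intro s
    rw [hU s]
    simp only [List.flatMap_append, List.append_assoc]
  have hws := hw s
  have hws' := hw s'
  clear hw
  set P1 := M ++ U.flatMap φ with hP1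
  set Y := (s.map (fun i => 3 * i)).flatMap φ with hY
  set Y' := (s'.map (fun i => 3 * i)).flatMap φ with hY'
  set W1 := V1.flatMap φ with hW1
  set Λ := (L4 c).flatMap φ with hΛ
  set W2 := V2.flatMap φ ++ Q with hW2
  clear_value P1 Y Y' W1 Λ W2
  -- the blocks of the new word
  obtain ⟨B1, e1, hw1, hB1, he1⟩ := (hFST β m R c t _ hS hF).1
  have hnd : R.Nodup := hS.pR.nodup_iff.mpr List.nodup_range
  have hfil : (M ++ ((Fq R s' c).flatMap φ ++ Q)).filter (fun a => decide (a % 3 = 2)) =
      R.map (fun r => 3 * r + 2) := by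
    have h1 : (M ++ ((Fq R s c).flatMap φ ++ Q)).filter (fun a => decide (a % 3 = 2)) =
        R.map (fun r => 3 * r + 2) := by
      rw [hw1, List.filter_append, sta_filt B1 hB1, sta_filt_nil e1 he1, List.append_nil]
    rw [hws] at h1
    rw [hws', ← h1]
    simp only [List.filter_append]
    rw [sta_filt_nil Y hYS, sta_filt_nil Y' hYS']
  obtain ⟨B, e, hwB, hB, he⟩ := hDCM R _ hnd hfil
  -- the projections
  have key : ∀ i k j : ℕ, i ≤ k → k < j → j ≤ 3 → XX (Xs i j (xl (B 0))) ∧
      RR β (Ex R c (Xs i j (xl (B 0))))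
        ((M ++ ((Fq R s' c).flatMap φ ++ Q)).flatMap (pr i j k)) := by
    intro i k j hik hkj hj
    have hij : i ≠ j := by omega
    have hcnt : ∀ a, a < 4 → t.count a = 1 := by
      intro a ha
      rw [hF.1.count_eq]
      interval_cases a <;> decide
    have hX : XX (Xs i j t) := sta_xx i j hij t (hcnt i (by omega)) (hcnt j (by omega))
    have hr := hF.2 i k j hik hkj hj
    rw [hws, List.flatMap_append, List.flatMap_append] at hr
    obtain ⟨X', hX', hr'⟩ := hCLM β m R c (Xs i j t) (P1.flatMap (pr i j k)) (Y.flatMap (pr i j k))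
      (Y'.flatMap (pr i j k)) ((W1 ++ (Λ ++ W2)).flatMap (pr i j k)) hS hX hr
      (List.Perm.flatMap_right _ hYY) (sta_sf i j k Y hYS)
      ⟨W1.flatMap (pr i j k), Λ.flatMap (pr i j k), W2.flatMap (pr i j k), by
        simp only [List.flatMap_append], sta_sf i j k Λ hLam, by
        intro a ha
        rw [List.mem_flatMap] at ha ⊢
        obtain ⟨b, hb, hab⟩ := ha
        exact ⟨b, hYL b hb, hab⟩⟩
    have hr2 : RR β (Ex R c X') ((M ++ ((Fq R s' c).flatMap φ ++ Q)).flatMap (pr i j k)) := by
      rw [hws', List.flatMap_append, List.flatMap_append]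
      exact hr'
    have hr3 := hr2
    rw [hwB, List.flatMap_append, sta_bw] at hr3
    have hG := hCPR β m R c X' (fun r => (B r).flatMap (pr i j k)) (e.flatMap (pr i j k)) hS hX'
      (fun r => sta_sf i j k _ (hB r)) (sta_sf i j k _ he) hr3
    have hb0 := hG.b0
    rw [sta_fxy] at hb0
    rw [hb0]
    exact ⟨hX', hr2⟩
  refine ⟨xl (B 0), ?_, fun i k j h1 h2 h3 => (key i k j h1 h2 h3).2⟩
  have cn : ∀ X, XX X → X.count 0 = 1 ∧ X.count 3 = 1 := by
    intro X hX
    rcases hX with rfl | rfl <;> decide
  have k1 := cn _ (key 0 0 1 (by omega) (by omega) (by omega)).1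
  have k2 := cn _ (key 2 2 3 (by omega) (by omega) (by omega)).1
  rw [sta_cnt0, sta_cnt3 _ _ (by omega)] at k1 k2
  refine sta_perm _ ?_ k1.1 k1.2 k2.1 k2.2
  intro a ha
  unfold xl at ha
  rw [List.mem_map] at ha
  obtain ⟨b, hb, rfl⟩ := ha
  rw [List.mem_filter] at hb
  have := hb.2
  simp only [decide_eq_true_eq] at this
  omega

end Pool.Agent.MWEN.H86
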