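import Pool.Agent.Helper41_MWEN.Stmts

/-!
# Squad MWE, row SWI: adjacent letters in block `1` with another common block commute
-/

set_option autoImplicit false

namespace Pool.Agent.MWEN.H36

open Pool.Agent.Helper14_MV Pool.Agent.Helper2_MV Pool.Agent.MVD Pool.Agent.MWE

theorem bw_nil (B : ℕ → List ℕ) : Bw [] B = [] := rfl

theorem bw_cons (a : ℕ) (S : List ℕ) (B : ℕ → List ℕ) :
    Bw (a :: S) B = B a ++ (3 * a + 2) :: Bw S B := by
  unfold Bw
  rw [List.flatMap_cons, List.append_assoc]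
  rfl

theorem bw_append (R S : List ℕ) (B : ℕ → List ℕ) : Bw (R ++ S) B = Bw R B ++ Bw S B := by
  unfold Bw
  exact List.flatMap_append

theorem bw_congr {R : List ℕ} {B B' : ℕ → List ℕ} (h : ∀ r ∈ R, B r = B' r) :
    Bw R B = Bw R B' := by
  induction R with
  | nil => rfl
  | cons a S ih =>
    rw [bw_cons, bw_cons, h a List.mem_cons_self, ih (fun r hr => h r (List.mem_cons_of_mem _ hr))]

theorem bw_perm {R : List ℕ} {B B' : ℕ → List ℕ} (h : ∀ r, (B' r).Perm (B r)) :
    (Bw R B').Perm (Bw R B) := by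
  induction R with
  | nil => exact List.Perm.refl _
  | cons a S ih =>
    rw [bw_cons, bw_cons]
    exact (h a).append (List.Perm.cons _ ih)

theorem bf_perm {m : ℕ} {R c : List ℕ} {B B' : ℕ → List ℕ} {e e' : List ℕ} (h : Bf m R c B e)
    (hB : ∀ r, (B' r).Perm (B r)) (he : e'.Perm e) : Bf m R c B' e' := by
  have hw : (Bw R B' ++ e').Perm (Bw R B ++ e) := (bw_perm hB).append he
  refine { sf := ?_, se := ?_, x0 := ?_, x1 := ?_, xo := ?_, xe := ?_, y0 := ?_, y1 := ?_,
           yo := ?_, ye := ?_, li := ?_, le := ?_, ct := ?_, mu := ?_, fu := ?_ }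
  · intro r a ha
    exact h.sf r a ((hB r).mem_iff.1 ha)
  · intro a ha
    exact h.se a (he.mem_iff.1 ha)
  · rw [(hB 0).count_eq]
    exact h.x0
  · rw [(hB 1).count_eq]
    exact h.x1
  · intro r hr h0 h1 ha
    exact h.xo r hr h0 h1 ((hB r).mem_iff.1 ha)
  · intro ha
    exact h.xe (he.mem_iff.1 ha)
  · rw [(hB 0).count_eq]
    exact h.y0
  · rw [(hB 1).count_eq]
    exact h.y1
  · intro r hr h0 h1 ha
    exact h.yo r hr h0 h1 ((hB r).mem_iff.1 ha)
  · intro ha
    exact h.ye (he.mem_iff.1 ha)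
  · intro d hd r hr
    rw [(hB r).count_eq]
    exact h.li d hd r hr
  · intro d hd ha
    exact h.le d hd (he.mem_iff.1 ha)
  · intro a ha h2
    exact h.ct a (hw.mem_iff.1 ha) h2
  · intro a ha h2
    rw [hw.count_eq]
    exact h.mu a (hw.mem_iff.1 ha) h2
  · intro a ha
    exact (hB 1).mem_iff.2 (h.fu a ha)

/-- move two letters together -/
theorem gather (l : List ℕ) (a b : ℕ) (ha : a ∈ l) (hb : b ∈ l) (hab : a ≠ b)
    (hn : ¬ ((a = 0 ∨ a = 3) ∧ (b = 0 ∨ b = 3))) :
    ∃ E1 E2, (E1 ++ a :: b :: E2).Perm l ∧ fxy (E1 ++ a :: b :: E2) = fxy l := by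
  by_cases hx : a = 0 ∨ a = 3
  · have hbn : ¬ (b = 0 ∨ b = 3) := fun h => hn ⟨hx, h⟩
    obtain ⟨l1, l2, rfl⟩ := List.append_of_mem hb
    have ha' : a ∈ l1 ++ l2 := by
      rw [List.mem_append, List.mem_cons] at ha
      rw [List.mem_append]
      rcases ha with h | h | h
      · exact Or.inl h
      · exact absurd h hab
      · exact Or.inr h
    obtain ⟨E1, E2, hE⟩ := List.append_of_mem ha'
    refine ⟨E1, E2, ?_, ?_⟩
    · have e1 : E1 ++ a :: b :: E2 = (E1 ++ [a]) ++ b :: E2 := by simp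
      have e2 : (E1 ++ [a]) ++ E2 = l1 ++ l2 := by rw [hE]; simp
      rw [e1]
      refine List.perm_middle.trans ?_
      rw [e2]
      exact List.perm_middle.symm
    · have f1 : fxy (E1 ++ a :: b :: E2) = fxy (E1 ++ a :: E2) := by
        unfold fxy
        rw [List.filter_append, List.filter_append, List.filter_cons, List.filter_cons,
          List.filter_cons, if_neg (c := decide (b = 0 ∨ b = 3) = true) (by simpa using hbn)]
      have f2 : fxy (l1 ++ b :: l2) = fxy (l1 ++ l2) := by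
        unfold fxy
        rw [List.filter_append, List.filter_append, List.filter_cons,
          if_neg (by simpa using hbn)]
      rw [f1, f2, hE]
  · obtain ⟨l1, l2, rfl⟩ := List.append_of_mem ha
    have hb' : b ∈ l1 ++ l2 := by
      rw [List.mem_append, List.mem_cons] at hb
      rw [List.mem_append]
      rcases hb with h | h | h
      · exact Or.inl h
      · exact absurd h.symm hab
      · exact Or.inr h
    obtain ⟨E1, E2, hE⟩ := List.append_of_mem hb'
    refine ⟨E1, E2, ?_, ?_⟩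
    · refine List.perm_middle.trans ?_
      rw [← hE]
      exact List.perm_middle.symm
    · have f1 : fxy (E1 ++ a :: b :: E2) = fxy (E1 ++ b :: E2) := by
        unfold fxy
        rw [List.filter_append, List.filter_append, List.filter_cons,
          if_neg (c := decide (a = 0 ∨ a = 3) = true) (by simpa using hx)]
      have f2 : fxy (l1 ++ a :: l2) = fxy (l1 ++ l2) := by
        unfold fxy
        rw [List.filter_append, List.filter_append, List.filter_cons,
          if_neg (by simpa using hx)]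
      rw [f1, f2, hE]

theorem up_self (B : ℕ → List ℕ) (r : ℕ) (D : List ℕ) : up B r D r = D := if_pos rfl

theorem up_ne (B : ℕ → List ℕ) {r q : ℕ} (D : List ℕ) (h : q ≠ r) : up B r D q = B q := if_neg h

/-- replace block `1` -/
theorem bw_up {S1 S2 : List ℕ} (h1 : 1 ∉ S1) (h2 : 1 ∉ S2) (G : ℕ → List ℕ) (D : List ℕ) :
    Bw (S1 ++ 1 :: S2) (up G 1 D) = Bw S1 G ++ (D ++ 5 :: Bw S2 G) := by
  rw [bw_append, bw_cons, up_self,
    bw_congr (R := S1) (B := up G 1 D) (B' := G) (fun r hr => up_ne G D (fun h => h1 (h ▸ hr))),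
    bw_congr (R := S2) (B := up G 1 D) (B' := G) (fun r hr => up_ne G D (fun h => h2 (h ▸ hr)))]

theorem bw_mem {S : List ℕ} {G : ℕ → List ℕ} {r a b : ℕ} {E1 E2 : List ℕ} (hr : r ∈ S)
    (hG : G r = E1 ++ a :: b :: E2) : ∃ L1 L2, Bw S G = L1 ++ a :: b :: L2 := by
  obtain ⟨S1, S2, rfl⟩ := List.append_of_mem hr
  refine ⟨Bw S1 G ++ E1, E2 ++ (3 * r + 2) :: Bw S2 G, ?_⟩
  rw [bw_append, bw_cons, hG]
  simp

/-- the exchange in block `1` if the two letters are adjacent in another place -/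
theorem exch {β : FIC} (hF : FC β []) (hZ : ZC β []) {S1 S2 : List ℕ} (h1 : 1 ∉ S1)
    (h2 : 1 ∉ S2) (G : ℕ → List ℕ) (e A C : List ℕ) (a b : ℕ) (hG : G 1 = A ++ a :: b :: C)
    (h : (∃ L1 L2, Bw S1 G = L1 ++ a :: b :: L2) ∨
      ∃ L1 L2, Bw S2 G ++ e = L1 ++ a :: b :: L2) :
    RR β (Bw (S1 ++ 1 :: S2) G ++ e) (Bw (S1 ++ 1 :: S2) (up G 1 (A ++ b :: a :: C)) ++ e) := by
  rw [bw_up h1 h2, bw_append, bw_cons, hG]
  have hm : ∀ w, Mult [] w := fun w a ha => absurd ha (List.not_mem_nil)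
  rcases h with ⟨L1, L2, hL⟩ | ⟨L1, L2, hL⟩
  · have h5 := hZ L1 (L2 ++ A) (C ++ 5 :: (Bw S2 G ++ e)) a b (hm _)
    rw [hL]
    have e1 : L1 ++ a :: b :: L2 ++ (A ++ a :: b :: C ++ (3 * 1 + 2) :: Bw S2 G) ++ e =
        L1 ++ a :: ([] ++ b :: (L2 ++ A ++ a :: b :: (C ++ 5 :: (Bw S2 G ++ e)))) := by simp
    have e2 : L1 ++ a :: b :: L2 ++ (A ++ b :: a :: C ++ 5 :: Bw S2 G) ++ e =
        L1 ++ a :: ([] ++ b :: (L2 ++ A ++ b :: a :: (C ++ 5 :: (Bw S2 G ++ e)))) := by simp
    rw [e1, e2]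
    exact h5
  · have h5 := hF (Bw S1 G ++ A) (C ++ 5 :: L1) L2 a b (hm _)
    have e1 : Bw S1 G ++ (A ++ a :: b :: C ++ (3 * 1 + 2) :: Bw S2 G) ++ e =
        Bw S1 G ++ A ++ a :: b :: (C ++ 5 :: L1 ++ a :: ([] ++ b :: L2)) := by
      have e3 : Bw S1 G ++ (A ++ a :: b :: C ++ (3 * 1 + 2) :: Bw S2 G) ++ e =
        Bw S1 G ++ A ++ a :: b :: (C ++ 5 :: (Bw S2 G ++ e)) := by simp
      rw [e3, hL]
      simp
    have e2 : Bw S1 G ++ (A ++ b :: a :: C ++ 5 :: Bw S2 G) ++ e =
        Bw S1 G ++ A ++ b :: a :: (C ++ 5 :: L1 ++ a :: ([] ++ b :: L2)) := by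
      have e3 : Bw S1 G ++ (A ++ b :: a :: C ++ 5 :: Bw S2 G) ++ e =
        Bw S1 G ++ A ++ b :: a :: (C ++ 5 :: (Bw S2 G ++ e)) := by simp
      rw [e3, hL]
      simp
    rw [e1, e2]
    exact h5

theorem swi (hPMV : PmvStmt) : SwiStmt := by
  intro β m R c B e hcan hIH hc hR hbf A C a b hB1 hab hn hcom
  have hS : Sm [] c := by
    refine Or.inr ⟨by simp [nr], ?_⟩
    unfold nd
    rw [List.toFinset_nil, Finset.card_empty, Finset.card_pos]
    obtain ⟨x, hx⟩ := List.exists_mem_of_ne_nil c hc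
    exact ⟨x, List.mem_toFinset.2 hx⟩
  obtain ⟨hF, hZ⟩ := hIH [] hS
  have hnd : R.Nodup := hR.nodup_iff.2 List.nodup_range
  have h1R : 1 ∈ R := hR.mem_iff.2 (List.mem_range.2 (by omega))
  obtain ⟨S1, S2, hRS⟩ := List.append_of_mem h1R
  rw [hRS] at hnd
  have hd := List.nodup_append.1 hnd
  have h1 : 1 ∉ S1 := fun h => (hd.2.2 1 h 1 List.mem_cons_self) rfl
  have h2 : 1 ∉ S2 := (List.nodup_cons.1 hd.2.1).1
  obtain ⟨D, hD⟩ : ∃ D, D = A ++ b :: a :: C := ⟨_, rfl⟩
  have hDp : D.Perm (B 1) := by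
    rw [hD, hB1]
    exact List.Perm.append_left A (List.Perm.swap a b C)
  have hbf1 : Bf m R c (up B 1 D) e := by
    refine bf_perm hbf (fun r => ?_) (List.Perm.refl _)
    by_cases hr : r = 1
    · subst hr
      rw [up_self]
      exact hDp
    · rw [up_ne B D hr]
  rw [← hD]
  rcases hcom with ⟨r, hr, hr1, har, hbr⟩ | ⟨hae, hbe⟩
  · obtain ⟨E1, E2, hE1, hE2⟩ := gather (B r) a b har hbr hab hn
    obtain ⟨D', hD'⟩ : ∃ D', D' = E1 ++ a :: b :: E2 := ⟨_, rfl⟩
    rw [← hD'] at hE1 hE2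
    have s1 : RR β (Bw R B ++ e) (Bw R (up B r D') ++ e) := by
      refine hPMV β m R c B e hcan hIH hR hbf (up B r D') e (fun x _ => ?_)
        (up_ne B D' (Ne.symm hr1)) ?_ (List.Perm.refl _)
      · by_cases hx : x = r
        · subst hx
          rw [up_self]
          exact hE1
        · rw [up_ne B D' hx]
      · by_cases hx : 0 = r
        · rw [← hx] at hE2 ⊢
          rw [up_self]
          exact hE2
        · rw [up_ne B D' hx]
    have s2 : RR β (Bw R (up B r D') ++ e) (Bw R (up (up B r D') 1 D) ++ e) := by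
      rw [hRS, hD]
      refine exch hF hZ h1 h2 (up B r D') e A C a b ?_ ?_
      · rw [up_ne B D' (Ne.symm hr1)]
        exact hB1
      · have hG : (up B r D') r = E1 ++ a :: b :: E2 := by rw [up_self, hD']
        rw [hRS, List.mem_append, List.mem_cons] at hr
        rcases hr with h | h | h
        · exact Or.inl (bw_mem h hG)
        · exact absurd h hr1
        · obtain ⟨L1, L2, hL⟩ := bw_mem h hG
          exact Or.inr ⟨L1, L2 ++ e, by rw [hL]; simp⟩
    have s3 : RR β (Bw R (up B 1 D) ++ e) (Bw R (up (up B 1 D) r D') ++ e) := by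
      refine hPMV β m R c (up B 1 D) e hcan hIH hR hbf1 (up (up B 1 D) r D') e (fun x _ => ?_)
        (up_ne (up B 1 D) D' (Ne.symm hr1)) ?_ (List.Perm.refl _)
      · by_cases hx : x = r
        · subst hx
          rw [up_self, up_ne B D hr1]
          exact hE1
        · rw [up_ne (up B 1 D) D' hx]
      · by_cases hx : 0 = r
        · rw [← hx] at hE2 ⊢
          rw [up_self, up_ne B D (by norm_num)]
          exact hE2
        · rw [up_ne (up B 1 D) D' hx]
    have e1 : up (up B 1 D) r D' = up (up B r D') 1 D := by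
      funext x
      by_cases hx : x = r
      · subst hx
        rw [up_self, up_ne _ D hr1, up_self]
      · rw [up_ne _ D' hx]
        by_cases hx1 : x = 1
        · subst hx1
          rw [up_self, up_self]
        · rw [up_ne _ D hx1, up_ne _ D hx1, up_ne _ D' hx]
    rw [e1] at s3
    exact β.trans s1 (β.trans s2 s3.symm)
  · obtain ⟨E1, E2, hE1, -⟩ := gather e a b hae hbe hab hn
    obtain ⟨e', he'⟩ : ∃ e', e' = E1 ++ a :: b :: E2 := ⟨_, rfl⟩
    rw [← he'] at hE1
    have s1 : RR β (Bw R B ++ e) (Bw R B ++ e') :=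
      hPMV β m R c B e hcan hIH hR hbf B e' (fun x _ => List.Perm.refl _) rfl rfl hE1
    have s2 : RR β (Bw R B ++ e') (Bw R (up B 1 D) ++ e') := by
      rw [hRS, hD]
      refine exch hF hZ h1 h2 B e' A C a b hB1 (Or.inr ⟨Bw S2 B ++ E1, E2, ?_⟩)
      rw [he']
      simp
    have s3 : RR β (Bw R (up B 1 D) ++ e) (Bw R (up B 1 D) ++ e') :=
      hPMV β m R c (up B 1 D) e hcan hIH hR hbf1 (up B 1 D) e' (fun x _ => List.Perm.refl _) rfl
        rfl hE1
    exact β.trans s1 (β.trans s2 s3.symm)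

end Pool.Agent.MWEN.H36
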