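import Pool.Agent.Helper41_MWEN.Stmts

/-!
# Row SWO of block MWE: adjacent exchanges outside block 1
-/

set_option autoImplicit false

namespace Pool.Agent.MWEN.H7

open Pool.Agent.Helper14_MV Pool.Agent.Helper2_MV Pool.Agent.MVD Pool.Agent.MWE

theorem bw_congr {R : List ℕ} {B B' : ℕ → List ℕ} (h : ∀ r ∈ R, B r = B' r) :
    Bw R B = Bw R B' := by
  induction R with
  | nil => rfl
  | cons a R ih =>
    show (B a ++ [3 * a + 2]) ++ Bw R B = (B' a ++ [3 * a + 2]) ++ Bw R B'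
    rw [h a (by simp), ih fun r hr => h r (List.mem_cons_of_mem _ hr)]

theorem bw_append (R S : List ℕ) (B : ℕ → List ℕ) : Bw (R ++ S) B = Bw R B ++ Bw S B :=
  List.flatMap_append

theorem bw_cons (a : ℕ) (S : List ℕ) (B : ℕ → List ℕ) :
    Bw (a :: S) B = B a ++ (3 * a + 2) :: Bw S B := by
  show (B a ++ [3 * a + 2]) ++ Bw S B = _
  simp

theorem mem_bw {R : List ℕ} {B : ℕ → List ℕ} {r a : ℕ} (hr : r ∈ R) (ha : a ∈ B r) :
    a ∈ Bw R B :=
  List.mem_flatMap.2 ⟨r, hr, List.mem_append_left _ ha⟩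

/-- block `r` is replaced -/
theorem bw_up {R1 R2 : List ℕ} {r : ℕ} (h1 : r ∉ R1) (h2 : r ∉ R2) (B : ℕ → List ℕ) (D : List ℕ) :
    Bw (R1 ++ r :: R2) (up B r D) = Bw R1 B ++ (D ++ (3 * r + 2) :: Bw R2 B) := by
  rw [bw_append, bw_cons]
  have e1 : Bw R1 (up B r D) = Bw R1 B := bw_congr fun q hq => by
    unfold up
    rw [if_neg]
    rintro rfl
    exact h1 hq
  have e2 : Bw R2 (up B r D) = Bw R2 B := bw_congr fun q hq => by
    unfold up
    rw [if_neg]
    rintro rfl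
    exact h2 hq
  have e3 : up B r D r = D := if_pos rfl
  rw [e1, e2, e3]

section

variable {β : FIC} {m : ℕ} {R c : List ℕ} {B : ℕ → List ℕ} {e : List ℕ}

/-- the letters of the word -/
theorem cases_c (hc : Can m c) {a : ℕ} (h : a = 0 ∨ a = 3 ∨ a ∈ c) :
    a = 0 ∨ a = 3 ∨ (∃ d < m, a = 3 * d + 1) ∨ (a ∈ c ∧ 2 ≤ c.count a) := by
  rcases h with h | h | h
  · exact Or.inl h
  · exact Or.inr (Or.inl h)
  · rcases hc.lo a h with h1 | h1
    · exact Or.inr (Or.inr (Or.inl h1))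
    · exact Or.inr (Or.inr (Or.inr ⟨h, h1.2.2⟩))

theorem one_mem (hR : R.Perm (List.range (m + 2))) : 1 ∈ R :=
  hR.mem_iff.2 (List.mem_range.2 (by omega))

theorem letB1 (hc : Can m c) (hR : R.Perm (List.range (m + 2))) (hB : Bf m R c B e) {a : ℕ}
    (ha : a ∈ B 1) : a = 0 ∨ a = 3 ∨ a ∈ c :=
  hB.ct a (List.mem_append_left _ (mem_bw (one_mem hR) ha)) (hB.sf 1 a ha)

theorem inB1 (hB : Bf m R c B e) {a : ℕ} (h : a = 0 ∨ a = 3 ∨ a ∈ c) : a ∈ B 1 := by
  rcases h with h | h | h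
  · subst h
    exact List.count_pos_iff.1 (by rw [hB.x1]; norm_num)
  · subst h
    exact List.count_pos_iff.1 (by rw [hB.y1]; norm_num)
  · exact hB.fu a h

/-- the induction hypothesis for the factors of block `1` -/
theorem small (hS : SmaStmt) (hc : Can m c) (hR : R.Perm (List.range (m + 2)))
    (hB : Bf m R c B e) {a b : ℕ} (hab : a ≠ b) (ha : a = 0 ∨ a = 3 ∨ a ∈ c) (hb : b ∈ c)
    (hb2 : 2 ≤ c.count b) {c' : List ℕ} (hi : c' <:+: B 1) (ha' : a ∉ c') (hb' : b ∉ c') :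
    Sm c' c := by
  refine (hS m c hc).1 (B 1) c' a b (fun u hu => letB1 hc hR hB hu) hB.x1.le hB.y1.le ?_ hi hab ha
    hb hb2 ha' hb'
  intro d hd
  rw [hB.li d hd 1 (one_mem hR)]
  split_ifs <;> omega

theorem small' (hS : SmaStmt) (hc : Can m c) (hR : R.Perm (List.range (m + 2)))
    (hB : Bf m R c B e) {a b : ℕ} (hab : a ≠ b) (ha : a = 0 ∨ a = 3 ∨ a ∈ c)
    (hb : b = 0 ∨ b = 3 ∨ b ∈ c) (h2 : (a ∈ c ∧ 2 ≤ c.count a) ∨ (b ∈ c ∧ 2 ≤ c.count b))
    {c' : List ℕ} (hi : c' <:+: B 1) (ha' : a ∉ c') (hb' : b ∉ c') : Sm c' c := by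
  rcases h2 with h2 | h2
  · exact small hS hc hR hB (Ne.symm hab) hb h2.1 h2.2 hi hb' ha'
  · exact small hS hc hR hB hab ha h2.1 h2.2 hi ha' hb'

end

theorem swo (hS : SmaStmt) (hL : LocStmt) : SwoStmt := by
  intro β m R c B e hc hI hR hB
  have hnd : R.Nodup := hR.nodup_iff.2 List.nodup_range
  have h1R : 1 ∈ R := one_mem hR
  have mult : ∀ d ∈ B 1, 2 ≤ (Bw R B ++ e).count d := fun d hd =>
    hB.mu d (List.mem_append_left _ (mem_bw h1R hd)) (hB.sf 1 d hd)
  constructor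
  · intro r A C a b hr hr1 hBr hab h03
    have haB : a ∈ B r := by rw [hBr]; simp
    have hbB : b ∈ B r := by rw [hBr]; simp
    have ha3 : a = 0 ∨ a = 3 ∨ a ∈ c :=
      hB.ct a (List.mem_append_left _ (mem_bw hr haB)) (hB.sf r a haB)
    have hb3 : b = 0 ∨ b = 3 ∨ b ∈ c :=
      hB.ct b (List.mem_append_left _ (mem_bw hr hbB)) (hB.sf r b hbB)
    -- one of the letters is local
    have r0 : ∀ u ∈ B r, (u = 0 ∨ u = 3) → r = 0 := by
      intro u hu hu3
      by_contra hr0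
      rcases hu3 with h | h
      · subst h
        exact hB.xo r hr hr0 hr1 hu
      · subst h
        exact hB.yo r hr hr0 hr1 hu
    have rd : ∀ u ∈ B r, ∀ d < m, u = 3 * d + 1 → r = d + 2 := by
      intro u hu d hd h
      subst h
      have h2 := hB.li d hd r hr
      have h3 : 0 < (B r).count (3 * d + 1) := List.count_pos_iff.2 hu
      by_contra h4
      rw [if_neg (by omega)] at h2
      omega
    have hloc : (a ∈ c ∧ 2 ≤ c.count a) ∨ (b ∈ c ∧ 2 ≤ c.count b) := by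
      by_contra hcon
      push Not at hcon
      have ha4 : (a = 0 ∨ a = 3) ∨ ∃ d < m, a = 3 * d + 1 := by
        rcases cases_c hc ha3 with h | h | h | h
        · exact Or.inl (Or.inl h)
        · exact Or.inl (Or.inr h)
        · exact Or.inr h
        · exact absurd h.2 (by have := hcon.1 h.1; omega)
      have hb4 : (b = 0 ∨ b = 3) ∨ ∃ d < m, b = 3 * d + 1 := by
        rcases cases_c hc hb3 with h | h | h | h
        · exact Or.inl (Or.inl h)
        · exact Or.inl (Or.inr h)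
        · exact Or.inr h
        · exact absurd h.2 (by have := hcon.2 h.1; omega)
      rcases ha4 with ha4 | ⟨d, hd, ha4⟩
      · have h1 := r0 a haB ha4
        rcases hb4 with hb4 | ⟨d', hd', hb4⟩
        · exact h03 ⟨ha4, hb4⟩
        · have h2 := rd b hbB d' hd' hb4
          omega
      · have h1 := rd a haB d hd ha4
        rcases hb4 with hb4 | ⟨d', hd', hb4⟩
        · have h2 := r0 b hbB hb4
          omega
        · have h2 := rd b hbB d' hd' hb4
          omega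
    have haB1 := inB1 hB ha3
    have hbB1 := inB1 hB hb3
    obtain ⟨R1, R', hRr⟩ := List.append_of_mem hr
    have hn := hnd
    rw [hRr, List.nodup_append, List.nodup_cons] at hn
    have hr1' : r ∉ R1 := fun h => hn.2.2 r h r (by simp) rfl
    have hr2' : r ∉ R' := hn.2.1.1
    have hup : Bw R (up B r (A ++ b :: a :: C)) =
        Bw R1 B ++ ((A ++ b :: a :: C) ++ (3 * r + 2) :: Bw R' B) := by
      rw [hRr]
      exact bw_up hr1' hr2' B _
    have hB0 : Bw R B = Bw R1 B ++ ((A ++ a :: b :: C) ++ (3 * r + 2) :: Bw R' B) := by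
      rw [hRr, bw_append, bw_cons, hBr]
    rw [hRr] at h1R
    have h1R' : 1 ∈ R1 ∨ 1 ∈ R' := by
      rcases List.mem_append.1 h1R with h | h
      · exact Or.inl h
      · rcases List.mem_cons.1 h with h | h
        · exact absurd h.symm hr1
        · exact Or.inr h
    rcases h1R' with h | h
    · obtain ⟨Q1, Q2, hQ⟩ := List.append_of_mem h
      have hQ1 : Bw R1 B = Bw Q1 B ++ (B 1 ++ (3 * 1 + 2) :: Bw Q2 B) := by
        rw [hQ, bw_append, bw_cons]
      have hl := (hL β (Bw Q1 B) ((3 * 1 + 2) :: (Bw Q2 B ++ A)) (B 1)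
        (C ++ (3 * r + 2) :: (Bw R' B ++ e)) a b hab haB1 hbB1).2
      have e1 : Bw R B ++ e = Bw Q1 B ++ (B 1 ++ ((3 * 1 + 2) :: (Bw Q2 B ++ A) ++
          a :: b :: (C ++ (3 * r + 2) :: (Bw R' B ++ e)))) := by
        rw [hB0, hQ1]
        simp
      have e2 : Bw R (up B r (A ++ b :: a :: C)) ++ e = Bw Q1 B ++ (B 1 ++
          ((3 * 1 + 2) :: (Bw Q2 B ++ A) ++ b :: a :: (C ++ (3 * r + 2) :: (Bw R' B ++ e)))) := by
        rw [hup, hQ1]
        simp
      rw [e1, e2]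
      refine hl ?_ ?_
      · intro d hd
        rw [← e1]
        exact mult d hd
      · intro c' hc' ha' hb'
        exact (hI c' (small' hS hc hR hB hab ha3 hb3 hloc hc' ha' hb')).2
    · obtain ⟨Q1, Q2, hQ⟩ := List.append_of_mem h
      have hQ1 : Bw R' B = Bw Q1 B ++ (B 1 ++ (3 * 1 + 2) :: Bw Q2 B) := by
        rw [hQ, bw_append, bw_cons]
      have hl := (hL β (Bw R1 B ++ A) (C ++ (3 * r + 2) :: Bw Q1 B) (B 1)
        ((3 * 1 + 2) :: (Bw Q2 B ++ e)) a b hab haB1 hbB1).1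
      have e1 : Bw R B ++ e = (Bw R1 B ++ A) ++ a :: b :: ((C ++ (3 * r + 2) :: Bw Q1 B) ++
          (B 1 ++ (3 * 1 + 2) :: (Bw Q2 B ++ e))) := by
        rw [hB0, hQ1]
        simp
      have e2 : Bw R (up B r (A ++ b :: a :: C)) ++ e = (Bw R1 B ++ A) ++ b :: a ::
          ((C ++ (3 * r + 2) :: Bw Q1 B) ++ (B 1 ++ (3 * 1 + 2) :: (Bw Q2 B ++ e))) := by
        rw [hup, hQ1]
        simp
      rw [e1, e2]
      refine hl ?_ ?_
      · intro d hd
        rw [← e1]
        exact mult d hd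
      · intro c' hc' ha' hb'
        exact (hI c' (small' hS hc hR hB hab ha3 hb3 hloc hc' ha' hb')).1
  · intro A C a b he hab
    have hae : a ∈ e := by rw [he]; simp
    have hbe : b ∈ e := by rw [he]; simp
    have ha3 : a = 0 ∨ a = 3 ∨ a ∈ c := hB.ct a (List.mem_append_right _ hae) (hB.se a hae)
    have hb3 : b = 0 ∨ b = 3 ∨ b ∈ c := hB.ct b (List.mem_append_right _ hbe) (hB.se b hbe)
    have hloc : a ∈ c ∧ 2 ≤ c.count a := by
      rcases cases_c hc ha3 with h | h | ⟨d, hd, h⟩ | h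
      · rw [h] at hae
        exact absurd hae hB.xe
      · rw [h] at hae
        exact absurd hae hB.ye
      · rw [h] at hae
        exact absurd hae (hB.le d hd)
      · exact h
    have haB1 := inB1 hB ha3
    have hbB1 := inB1 hB hb3
    obtain ⟨Q1, Q2, hQ⟩ := List.append_of_mem h1R
    have hQ1 : Bw R B = Bw Q1 B ++ (B 1 ++ (3 * 1 + 2) :: Bw Q2 B) := by
      rw [hQ, bw_append, bw_cons]
    have hl := (hL β (Bw Q1 B) ((3 * 1 + 2) :: (Bw Q2 B ++ A)) (B 1) C a b hab haB1 hbB1).2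
    have e1 : Bw R B ++ e = Bw Q1 B ++ (B 1 ++ ((3 * 1 + 2) :: (Bw Q2 B ++ A) ++ a :: b :: C)) := by
      rw [hQ1]
      conv_lhs => rw [he]
      simp
    have e2 : Bw R B ++ (A ++ b :: a :: C) = Bw Q1 B ++ (B 1 ++ ((3 * 1 + 2) :: (Bw Q2 B ++ A) ++
        b :: a :: C)) := by
      rw [hQ1]
      simp
    rw [e1, e2]
    refine hl ?_ ?_
    · intro d hd
      rw [← e1]
      exact mult d hd
    · intro c' hc' ha' hb'
      exact (hI c' (small' hS hc hR hB hab ha3 hb3 (Or.inl hloc) hc' ha' hb')).2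

end Pool.Agent.MWEN.H7
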