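import Pool.Agent.Helper41_MWEN.Stmts

/-!
# Squad MWE, row SWT
-/

set_option autoImplicit false

namespace Pool.Agent.MWEN.H32

open Pool.Agent.Helper14_MV Pool.Agent.Helper2_MV Pool.Agent.MVD Pool.Agent.MWE

theorem bw_cons_mid (R1 R2 : List ℕ) (r : ℕ) (B : ℕ → List ℕ) :
    Bw (R1 ++ r :: R2) B = Bw R1 B ++ (B r ++ (3 * r + 2) :: Bw R2 B) := by
  simp [Bw]

theorem bw_up (R B) (r : ℕ) (D : List ℕ) (h : r ∉ R) : Bw R (up B r D) = Bw R B := by
  unfold Bw
  refine List.flatMap_congr ?_
  intro q hq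
  have : q ≠ r := fun h' => h (h' ▸ hq)
  simp [up, this]

theorem swt (h1 : SmaStmt) (h2 : LocStmt) : SwtStmt := by
  intro β m R c B e hcan hih hR hB A C a b hB1 hab haC hbC
  have h1R : 1 ∈ R := hR.symm.subset (by simp)
  have hnd : R.Nodup := hR.nodup_iff.2 List.nodup_range
  obtain ⟨R1, R2, rfl⟩ := List.append_of_mem h1R
  have hn1 : 1 ∉ R1 := by
    intro h
    have := List.nodup_append.1 hnd
    exact this.2.2 1 h 1 (by simp) rfl
  have hn2 : 1 ∉ R2 := by
    have := (List.nodup_append.1 hnd).2.1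
    exact (List.nodup_cons.1 this).1
  have hw : Bw (R1 ++ 1 :: R2) B ++ e =
      (Bw R1 B ++ A) ++ a :: b :: ([] ++ (C ++ (5 :: (Bw R2 B ++ e)))) := by
    rw [bw_cons_mid, hB1]
    simp
  have hw' : Bw (R1 ++ 1 :: R2) (up B 1 (A ++ b :: a :: C)) ++ e =
      (Bw R1 B ++ A) ++ b :: a :: ([] ++ (C ++ (5 :: (Bw R2 B ++ e)))) := by
    rw [bw_cons_mid, bw_up _ _ _ _ hn1, bw_up _ _ _ _ hn2]
    simp [up]
  -- the letters of block `1`
  have hmem : ∀ u ∈ B 1, u ∈ Bw (R1 ++ 1 :: R2) B ++ e := by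
    intro u hu
    rw [bw_cons_mid]
    simp [hu]
  have hsub : ∀ u ∈ C, u ∈ B 1 := by
    intro u hu
    rw [hB1]
    simp [hu]
  have hcnt : ∀ u, C.count u ≤ (B 1).count u := by
    intro u
    rw [hB1]
    simp only [List.count_append, List.count_cons]
    omega
  have hlight : ∀ d < m, (B 1).count (3 * d + 1) = 1 := by
    intro d hd
    rw [hB.li d hd 1 h1R]
    simp
  have hloc : ∀ u, (u = a ∨ u = b) → u ∈ c ∧ 2 ≤ c.count u := by
    intro u hu
    have huC : u ∈ C := by
      rcases hu with rfl | rfl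
      · exact haC
      · exact hbC
    have hpos : 1 ≤ C.count u := List.count_pos_iff.2 huC
    have h2u : 2 ≤ (B 1).count u := by
      rw [hB1]
      rcases hu with rfl | rfl
      · rw [List.count_append, List.count_cons_self, List.count_cons]
        omega
      · rw [List.count_append, List.count_cons, List.count_cons_self]
        omega
    have hu0 : u ≠ 0 := by
      rintro rfl
      have := hB.x1
      omega
    have hu3 : u ≠ 3 := by
      rintro rfl
      have := hB.y1
      omega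
    have huc : u ∈ c := by
      rcases hB.ct u (hmem u (hsub u huC)) (hB.sf 1 u (hsub u huC)) with h | h | h
      · exact absurd h hu0
      · exact absurd h hu3
      · exact h
    refine ⟨huc, ?_⟩
    rcases hcan.lo u huc with ⟨d, hd, rfl⟩ | h
    · have := hlight d hd
      omega
    · exact h.2.2
  rw [hw, hw']
  refine (h2 β (Bw R1 B ++ A) [] C (5 :: (Bw R2 B ++ e)) a b hab haC hbC).1 ?_ ?_
  · intro d hd
    have := hB.mu d (hmem d (hsub d hd)) (hB.sf 1 d (hsub d hd))
    rwa [hw] at this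
  · intro c' hc' hac' hbc'
    refine (hih c' ?_).1
    refine (h1 m c hcan).1 C c' a b ?_ ?_ ?_ ?_ hc' hab (Or.inr (Or.inr (hloc a (Or.inl rfl)).1))
      (hloc b (Or.inr rfl)).1 (hloc b (Or.inr rfl)).2 hac' hbc'
    · intro u hu
      exact hB.ct u (hmem u (hsub u hu)) (hB.sf 1 u (hsub u hu))
    · have := hcnt 0
      have h3 := hB.x1
      omega
    · have := hcnt 3
      have h3 := hB.y1
      omega
    · intro d hd
      have := hcnt (3 * d + 1)
      have h3 := hlight d hd
      omega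

end Pool.Agent.MWEN.H32
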