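import Pool.Agent.Helper41_MWEN.Stmts

/-!
# Squad MWE (MP_23468a_al), row XCH (helper66)
-/

set_option autoImplicit false

namespace Pool.Agent.MWEN.H66

open Pool.Agent.Helper14_MV Pool.Agent.Helper2_MV Pool.Agent.MVD Pool.Agent.MWE

variable {β : FIC}

/-- insertion of `v^(n k)` -/
theorem itk {n : ℕ} (h : ∀ (p w w' q : List ℕ) (x : ℕ),
    Mult (w ++ w') (p ++ x :: (w ++ (w' ++ x :: q))) →
      RR β (p ++ x :: (w ++ (w' ++ x :: q)))
        (p ++ x :: (w ++ (List.replicate n x ++ (w' ++ x :: q)))))
    (p w w' q : List ℕ) (x : ℕ) (hm : Mult (w ++ w') (p ++ x :: (w ++ (w' ++ x :: q)))) (k : ℕ) :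
    RR β (p ++ x :: (w ++ (w' ++ x :: q)))
      (p ++ x :: (w ++ (List.replicate (n * k) x ++ (w' ++ x :: q)))) := by
  induction k with
  | zero => exact RR.refl _
  | succ k ih =>
    have h1 := h p w (List.replicate (n * k) x ++ w') q x (by
      intro a ha
      have h2 : a ∈ w ++ w' ∨ a = x := by
        rcases List.mem_append.1 ha with h3 | h3
        · exact Or.inl (List.mem_append_left _ h3)
        · rcases List.mem_append.1 h3 with h4 | h4
          · exact Or.inr (List.eq_of_mem_replicate h4)
          · exact Or.inl (List.mem_append_right _ h4)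
      rcases h2 with h2 | h2
      · have h5 := hm a h2
        simp only [List.count_append, List.count_cons] at h5 ⊢
        omega
      · subst h2
        simp only [List.count_append, List.count_cons_self]
        omega)
    have e : List.replicate (n * (k + 1)) x = List.replicate n x ++ List.replicate (n * k) x := by
      rw [← List.replicate_add]
      congr 1
      ring
    rw [e]
    simp only [List.append_assoc] at h1 ih ⊢
    exact β.trans ih h1

/-- the occurrences of `v` are replaced by `N, N + 1, ..` -/
def rnv (v : ℕ) : ℕ → List ℕ → List ℕ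
  | _, [] => []
  | N, a :: l => if a = v then N :: rnv v (N + 1) l else a :: rnv v N l

theorem rnv_flat (v M : ℕ) (l : List ℕ) : ∀ N, M ≤ N → (∀ a ∈ l, a < M) →
    (rnv v N l).flatMap (fun c => if M ≤ c then [v] else [c]) = l := by
  induction l with
  | nil => intro N _ _; rfl
  | cons a l ih =>
    intro N hN hl
    have ha := hl a List.mem_cons_self
    have hl' : ∀ b ∈ l, b < M := fun b hb => hl b (List.mem_cons_of_mem _ hb)
    unfold rnv
    by_cases hav : a = v
    · rw [if_pos hav, List.flatMap_cons, ih (N + 1) (by omega) hl', if_pos hN, hav]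
      rfl
    · rw [if_neg hav, List.flatMap_cons, ih N hN hl', if_neg (by omega)]
      rfl

theorem rnv_low (v : ℕ) (l : List ℕ) : ∀ N u, u < N → u ≠ v → (rnv v N l).count u = l.count u := by
  induction l with
  | nil => intro N u _ _; rfl
  | cons a l ih =>
    intro N u hu huv
    unfold rnv
    by_cases hav : a = v
    · rw [if_pos hav, List.count_cons_of_ne (by omega), ih (N + 1) u (by omega) huv,
        List.count_cons_of_ne (by omega)]
    · rw [if_neg hav, List.count_cons, List.count_cons, ih N u hu huv]

theorem rnv_v (v : ℕ) (l : List ℕ) : ∀ N, v < N → (rnv v N l).count v = 0 := by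
  induction l with
  | nil => intro N _; rfl
  | cons a l ih =>
    intro N hN
    unfold rnv
    by_cases hav : a = v
    · rw [if_pos hav, List.count_cons_of_ne (by omega), ih (N + 1) (by omega)]
    · rw [if_neg hav, List.count_cons_of_ne hav, ih N hN]

theorem rnv_high (v M : ℕ) (l : List ℕ) : ∀ N, M ≤ N → (∀ a ∈ l, a < M) → ∀ u, M ≤ u →
    (rnv v N l).count u = if N ≤ u ∧ u < N + l.count v then 1 else 0 := by
  induction l with
  | nil =>
    intro N _ _ u _
    have h : ¬ (N ≤ u ∧ u < N + List.count v []) := by
      rw [List.count_nil]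
      omega
    rw [if_neg h]
    rfl
  | cons a l ih =>
    intro N hN hl u hu
    have ha := hl a List.mem_cons_self
    have hl' : ∀ b ∈ l, b < M := fun b hb => hl b (List.mem_cons_of_mem _ hb)
    unfold rnv
    by_cases hav : a = v
    · rw [if_pos hav, hav, List.count_cons_self]
      by_cases h1 : N = u
      · rw [h1, List.count_cons_self, ih (u + 1) (by omega) hl' u hu, if_neg (by omega),
          if_pos (by omega)]
      · rw [List.count_cons_of_ne h1, ih (N + 1) (by omega) hl' u hu]
        by_cases h3 : N + 1 ≤ u ∧ u < N + 1 + l.count v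
        · rw [if_pos h3, if_pos (by omega)]
        · rw [if_neg h3, if_neg (by omega)]
    · rw [if_neg hav, List.count_cons_of_ne (by omega), ih N hN hl' u hu,
        List.count_cons_of_ne hav]

theorem flat_low {v M : ℕ} {l : List ℕ} (h : ∀ a ∈ l, a < M) :
    l.flatMap (fun c => if M ≤ c then [v] else [c]) = l := by
  induction l with
  | nil => rfl
  | cons a l ih =>
    have ha := h a List.mem_cons_self
    rw [List.flatMap_cons, ih fun b hb => h b (List.mem_cons_of_mem _ hb), if_neg (by omega)]
    rfl

theorem flat_range (v M : ℕ) (k : ℕ) : (List.range' M k).flatMap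
    (fun c => if M ≤ c then [v] else [c]) = List.replicate k v := by
  have h : ∀ j N, M ≤ N → (List.range' N j).flatMap (fun c => if M ≤ c then [v] else [c]) =
      List.replicate j v := by
    intro j
    induction j with
    | zero => intro N _; rfl
    | succ j ih =>
      intro N hN
      rw [List.range'_succ, List.flatMap_cons, ih (N + 1) (by omega), if_pos hN,
        List.replicate_succ]
      rfl
  exact h k M (le_refl M)

theorem bnd (l : List ℕ) : ∃ M, 4 ≤ M ∧ ∀ a ∈ l, a < M := by
  induction l with
  | nil => exact ⟨4, le_refl 4, fun a ha => absurd ha List.not_mem_nil⟩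
  | cons b l ih =>
    obtain ⟨M, hM, h⟩ := ih
    refine ⟨M + b + 1, by omega, fun a ha => ?_⟩
    rcases List.mem_cons.1 ha with h1 | h1
    · omega
    · have := h a h1
      omega

theorem bw_append (R1 R2 : List ℕ) (B : ℕ → List ℕ) : Bw (R1 ++ R2) B = Bw R1 B ++ Bw R2 B := by
  unfold Bw
  rw [List.flatMap_append]

theorem bw_cons (r : ℕ) (R : List ℕ) (B : ℕ → List ℕ) :
    Bw (r :: R) B = B r ++ (3 * r + 2) :: Bw R B := by
  unfold Bw
  rw [List.flatMap_cons, List.append_assoc]
  rfl

theorem bw_up (R : List ℕ) (B : ℕ → List ℕ) (r : ℕ) (D : List ℕ) (h : r ∉ R) :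
    Bw R (up B r D) = Bw R B := by
  induction R with
  | nil => rfl
  | cons a R ih =>
    rw [List.mem_cons, not_or] at h
    rw [bw_cons, bw_cons, ih h.2]
    unfold up
    rw [if_neg (fun h' => h.1 h'.symm)]

theorem last_occ {v : ℕ} {g : List ℕ} (h : v ∈ g) : ∃ g1 g2, g = g1 ++ v :: g2 ∧ v ∉ g2 := by
  obtain ⟨a, b, hab, hn⟩ := List.eq_append_cons_of_mem (List.mem_reverse.2 h)
  refine ⟨b.reverse, a.reverse, ?_, fun h' => hn (List.mem_reverse.1 h')⟩
  have h1 := congrArg List.reverse hab
  rw [List.reverse_reverse, List.reverse_append, List.reverse_cons, List.append_assoc] at h1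
  exact h1

/-- **XCH** -/
theorem xch (sma : SmaStmt) : XchStmt := by
  intro β m R c B e i2 hcan ih hR hb hBs D1 D2 A g C h0 h1 hor
  obtain ⟨R1, R2, R3, hRe⟩ := hb
  have hnd : R.Nodup := hR.nodup_iff.2 List.nodup_range
  have h1R : 1 ∈ R := by
    rw [hRe]
    simp
  obtain ⟨P, hP⟩ : ∃ P, P = Bw R1 B ++ D1 := ⟨_, rfl⟩
  obtain ⟨Q, hQ⟩ : ∃ Q, Q = D2 ++ (3 * 0 + 2) :: Bw R2 B := ⟨_, rfl⟩
  obtain ⟨T, hT⟩ : ∃ T, T = (3 * 1 + 2) :: (Bw R3 B ++ e) := ⟨_, rfl⟩
  have hw : Bw R B ++ e = P ++ 0 :: 3 :: (Q ++ (A ++ 0 :: (g ++ 3 :: (C ++ T)))) := by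
    rw [hRe, bw_append, bw_cons, bw_append, bw_cons, h0, h1, hP, hQ, hT]
    simp only [List.append_assoc, List.cons_append]
  have hw' : Bw R (up B 0 (D1 ++ 3 :: 0 :: D2)) ++ e =
      P ++ 3 :: 0 :: (Q ++ (A ++ 0 :: (g ++ 3 :: (C ++ T)))) := by
    rw [hRe] at hnd
    have hn1 : 0 ∉ R1 := fun h => (List.nodup_append.1 hnd).2.2 0 h 0 (by simp) rfl
    have hn2 : 0 ∉ R2 ++ 1 :: R3 := (List.nodup_cons.1 (List.nodup_append.1 hnd).2.1).1
    rw [List.mem_append, not_or, List.mem_cons, not_or] at hn2
    have e0 : up B 0 (D1 ++ 3 :: 0 :: D2) 0 = D1 ++ 3 :: 0 :: D2 := if_pos rfl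
    have e1 : up B 0 (D1 ++ 3 :: 0 :: D2) 1 = B 1 := if_neg one_ne_zero
    rw [hRe, bw_append, bw_cons, bw_append, bw_cons, bw_up _ _ _ _ hn1, bw_up _ _ _ _ hn2.1,
      bw_up _ _ _ _ hn2.2.2, e0, e1, h1, hP, hQ, hT]
    simp only [List.append_assoc, List.cons_append]
  -- letters of block 1
  have hin : ∀ u ∈ B 1, u ∈ Bw R B ++ e := by
    intro u hu
    refine List.mem_append_left _ ?_
    unfold Bw
    exact List.mem_flatMap.2 ⟨1, h1R, List.mem_append_left _ hu⟩
  have hmu : ∀ u ∈ B 1, 2 ≤ (P ++ 0 :: 3 :: (Q ++ (A ++ 0 :: (g ++ 3 :: (C ++ T))))).count u := by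
    intro u hu
    rw [← hw]
    exact hBs.mu u (hin u hu) (hBs.sf 1 u hu)
  have hct : ∀ u ∈ B 1, u = 0 ∨ u = 3 ∨ u ∈ c := fun u hu =>
    hBs.ct u (hin u hu) (hBs.sf 1 u hu)
  have c0 := hBs.x1
  have c3 := hBs.y1
  rw [h1] at c0 c3
  simp only [List.count_append, List.count_cons, BEq.rfl, if_true] at c0 c3
  have hA0 : 0 ∉ A := fun h => by
    have := List.count_pos_iff.2 h
    omega
  have hg0 : 0 ∉ g := fun h => by
    have := List.count_pos_iff.2 h
    omega
  have hC0 : 0 ∉ C := fun h => by
    have := List.count_pos_iff.2 h
    omega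
  have hA3 : 3 ∉ A := fun h => by
    have := List.count_pos_iff.2 h
    omega
  have hg3 : 3 ∉ g := fun h => by
    have := List.count_pos_iff.2 h
    omega
  have hC3 : 3 ∉ C := fun h => by
    have := List.count_pos_iff.2 h
    omega
  have hAB : ∀ u ∈ A, u ∈ B 1 := fun u hu => by
    rw [h1]
    exact List.mem_append_left _ hu
  have hgB : ∀ u ∈ g, u ∈ B 1 := fun u hu => by
    rw [h1]
    exact List.mem_append_right _ (List.mem_cons_of_mem _ (List.mem_append_left _ hu))
  have hCB : ∀ u ∈ C, u ∈ B 1 := fun u hu => by
    rw [h1]
    exact List.mem_append_right _ (List.mem_cons_of_mem _ (List.mem_append_right _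
      (List.mem_cons_of_mem _ hu)))
  have h0B : 0 ∈ B 1 := by
    rw [h1]
    simp
  have h3B : 3 ∈ B 1 := by
    rw [h1]
    simp
  have hgc : ∀ u ∈ g, u ∈ c := fun u hu =>
    ((hct u (hgB u hu)).resolve_left fun h => hg0 (h ▸ hu)).resolve_left fun h => hg3 (h ▸ hu)
  have hAc : ∀ u ∈ A, u ∈ c := fun u hu =>
    ((hct u (hAB u hu)).resolve_left fun h => hA0 (h ▸ hu)).resolve_left fun h => hA3 (h ▸ hu)
  have hCc : ∀ u ∈ C, u ∈ c := fun u hu =>
    ((hct u (hCB u hu)).resolve_left fun h => hC0 (h ▸ hu)).resolve_left fun h => hC3 (h ▸ hu)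
  have hgl : ∀ d < m, g.count (3 * d + 1) ≤ 1 := by
    intro d hd
    have h2 := hBs.li d hd 1 h1R
    rw [if_pos (Or.inl rfl), h1] at h2
    simp only [List.count_append, List.count_cons] at h2
    omega
  rw [hw, hw']
  by_cases hall : ∃ a ∈ c, a ∉ g
  · obtain ⟨a, ha, hag⟩ := hall
    have hs : Sm g c := (sma m c hcan).2.1 g a hgc hgl ha hag
    have hf := (ih g hs).1 P (Q ++ A) (C ++ T) 0 3 (fun u hu => by
      have h2 := hmu u (hgB u hu)
      rw [List.append_assoc]
      exact h2)
    rw [List.append_assoc] at hf
    exact hf
  · push Not at hall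
    -- a letter of `A` or `C` is a local letter
    have hloc : ∀ v ∈ c, (v ∈ A ∨ v ∈ C) → 2 ≤ c.count v := by
      intro v hvc hv
      rcases hcan.lo v hvc with ⟨d, hd, hvd⟩ | h2
      · exfalso
        have h2 := hBs.li d hd 1 h1R
        rw [if_pos (Or.inl rfl), h1, ← hvd] at h2
        have h3 := List.count_pos_iff.2 (hall v hvc)
        simp only [List.count_append, List.count_cons] at h2
        rcases hv with hv | hv
        · have h4 := List.count_pos_iff.2 hv
          omega
        · have h4 := List.count_pos_iff.2 hv
          omega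
      · exact h2.2.2
    have hor' : A ≠ [] ∨ C ≠ [] := by
      rcases hor with h | h
      · obtain ⟨a, ha, hag⟩ := h
        exact absurd (hall a ha) hag
      · exact h
    obtain ⟨n, hn, hIT⟩ := i2
    obtain ⟨M, hM4, hMb⟩ := bnd (P ++ 0 :: 3 :: (Q ++ (A ++ 0 :: (g ++ 3 :: (C ++ T)))))
    have bP : ∀ a ∈ P, a < M := fun a ha => hMb a (by simp [ha])
    have bQ : ∀ a ∈ Q, a < M := fun a ha => hMb a (by simp [ha])
    have bA : ∀ a ∈ A, a < M := fun a ha => hMb a (by simp [ha])
    have bg : ∀ a ∈ g, a < M := fun a ha => hMb a (by simp [ha])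
    have bC : ∀ a ∈ C, a < M := fun a ha => hMb a (by simp [ha])
    have bT : ∀ a ∈ T, a < M := fun a ha => hMb a (by simp [ha])
    -- the chain with different letters is smaller
    have hsm : ∀ v ∈ c, (v ∈ A ∨ v ∈ C) → Sm (rnv v M g) c := by
      intro v hvc hv
      have hvM : v < M := bg v (hall v hvc)
      refine (sma m c hcan).2.2 _ v ?_ hvc (hloc v hvc hv) ?_
      · intro u hu
        by_cases h1 : M ≤ u
        · rw [rnv_high v M g M (le_refl M) bg u h1] at hu
          split_ifs at hu
          · omega
          · omega
        · by_cases h2 : u = v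
          · rw [h2, rnv_v v g M hvM] at hu
            omega
          · rw [rnv_low v g M u (by omega) h2] at hu
            refine ⟨hgc u (List.count_pos_iff.1 (by omega)), ?_⟩
            rintro d hd rfl
            have := hgl d hd
            omega
      · rw [rnv_v v g M hvM]
        omega
    rcases hor' with hA | hC
    · -- `A = v :: A2`
      obtain ⟨v, A2, rfl⟩ := List.exists_cons_of_ne_nil hA
      have hvc : v ∈ c := hAc v List.mem_cons_self
      have hvg : v ∈ g := hall v hvc
      have hvM : v < M := bg v hvg
      obtain ⟨k, hk⟩ : ∃ k, k = g.count v := ⟨_, rfl⟩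
      have hkn : k ≤ n * k := Nat.le_mul_of_pos_left k hn
      obtain ⟨g1, g2, hge⟩ := List.append_of_mem hvg
      -- insertion
      have key : ∀ X : List ℕ, (∀ u, X.count u = [0, 3].count u) →
          RR β (P ++ (X ++ (Q ++ (v :: A2 ++ 0 :: (g ++ 3 :: (C ++ T))))))
            (P ++ (X ++ (Q ++ v :: (List.replicate (n * k) v ++ (A2 ++
              0 :: (g ++ 3 :: (C ++ T))))))) := by
        intro X hX
        have h2 := itk hIT (P ++ (X ++ Q)) [] (A2 ++ 0 :: g1) (g2 ++ 3 :: (C ++ T)) v (fun u hu => by
          have h3 : u ∈ B 1 := by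
            rw [List.nil_append] at hu
            rcases List.mem_append.1 hu with h | h
            · exact hAB u (List.mem_cons_of_mem _ h)
            · rcases List.mem_cons.1 h with h | h
              · rw [h]
                exact h0B
              · exact hgB u (by rw [hge]; exact List.mem_append_left _ h)
          have h4 := hmu u h3
          have h5 := hX u
          rw [hge] at h4
          simp only [List.count_append, List.count_cons, List.count_nil] at h4 h5 ⊢
          omega) k
        rw [hge]
        simp only [List.append_assoc, List.cons_append, List.nil_append] at h2 ⊢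
        exact h2
      have hf := (ih _ (hsm v hvc (Or.inl List.mem_cons_self))).1 P
        (Q ++ v :: (List.replicate (n * k - k) v ++ (List.range' M k ++ A2))) (C ++ T) 0 3
        (fun u hu => by
          have hcu : 0 < (rnv v M g).count u := List.count_pos_iff.2 hu
          by_cases h1 : M ≤ u
          · have h2 := rnv_high v M g M (le_refl M) bg u h1
            have h3 : M ≤ u ∧ u < M + g.count v := by
              by_contra hcon
              rw [if_neg hcon] at h2
              omega
            have h4 : 0 < (List.range' M k).count u := by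
              rw [List.count_pos_iff, List.mem_range'_1]
              omega
            simp only [List.count_append, List.count_cons]
            omega
          · have h2 : u ≠ v := by
              rintro rfl
              rw [rnv_v u g M hvM] at hcu
              omega
            have h3 := rnv_low v g M u (by omega) h2
            have h4 := hmu u (hgB u (List.count_pos_iff.1 (by omega)))
            simp only [List.count_append, List.count_cons] at h4 ⊢
            omega)
      have hf2 := RR.sub (fun c => if M ≤ c then [v] else [c]) hf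
      have hrep : List.replicate (n * k - k) v ++ List.replicate k v =
          List.replicate (n * k) v := by
        rw [← List.replicate_add]
        congr 1
        omega
      have hA2 : ∀ a ∈ A2, a < M := fun a ha => bA a (List.mem_cons_of_mem _ ha)
      have hCT : ∀ a ∈ C ++ T, a < M := fun a ha => by
        rcases List.mem_append.1 ha with h | h
        · exact bC a h
        · exact bT a h
      have hrl : ∀ a ∈ List.replicate (n * k - k) v, a < M := fun a ha => by
        rw [List.eq_of_mem_replicate ha]
        exact hvM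
      simp only [List.flatMap_append, List.flatMap_cons, flat_low bP, flat_low bQ, flat_low hA2,
        flat_low bC, flat_low bT, flat_low hrl, flat_range v M k, rnv_flat v M g M (le_refl M) bg,
        if_neg (show ¬ M ≤ 0 by omega), if_neg (show ¬ M ≤ 3 by omega),
        if_neg (show ¬ M ≤ v by omega), List.cons_append, List.nil_append, List.append_assoc]
        at hf2
      rw [← List.append_assoc (List.replicate (n * k - k) v), hrep] at hf2
      exact β.trans (β.trans (key [0, 3] fun u => rfl) hf2)
        (RR.symm (key [3, 0] fun u => (List.Perm.swap 0 3 []).count_eq u))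
    · obtain ⟨v, C2, rfl⟩ := List.exists_cons_of_ne_nil hC
      have hvc : v ∈ c := hCc v List.mem_cons_self
      have hvg : v ∈ g := hall v hvc
      have hvM : v < M := bg v hvg
      obtain ⟨k, hk⟩ : ∃ k, k = g.count v := ⟨_, rfl⟩
      have hkn : k ≤ n * k := Nat.le_mul_of_pos_left k hn
      obtain ⟨g1, g2, hge⟩ := List.append_of_mem hvg
      have key : ∀ X : List ℕ, (∀ u, X.count u = [0, 3].count u) →
          RR β (P ++ (X ++ (Q ++ (A ++ 0 :: (g ++ 3 :: (v :: C2 ++ T))))))
            (P ++ (X ++ (Q ++ (A ++ 0 :: (g ++ 3 :: (List.replicate (n * k) v ++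
              v :: (C2 ++ T))))))) := by
        intro X hX
        have h2 := itk hIT (P ++ (X ++ (Q ++ (A ++ 0 :: g1)))) (g2 ++ [3]) [] (C2 ++ T) v
          (fun u hu => by
          have h3 : u ∈ B 1 := by
            rw [List.append_nil] at hu
            rcases List.mem_append.1 hu with h | h
            · exact hgB u (by rw [hge]; exact List.mem_append_right _ (List.mem_cons_of_mem _ h))
            · rw [List.mem_singleton] at h
              rw [h]
              exact h3B
          have h4 := hmu u h3
          have h5 := hX u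
          rw [hge] at h4
          simp only [List.count_append, List.count_cons, List.count_nil] at h4 h5 ⊢
          omega) k
        rw [hge]
        simp only [List.append_assoc, List.cons_append, List.nil_append] at h2 ⊢
        exact h2
      have hf := (ih _ (hsm v hvc (Or.inr List.mem_cons_self))).1 P (Q ++ A)
        (List.range' M k ++ (List.replicate (n * k - k) v ++ v :: (C2 ++ T))) 0 3
        (fun u hu => by
          have hcu : 0 < (rnv v M g).count u := List.count_pos_iff.2 hu
          by_cases h1 : M ≤ u
          · have h2 := rnv_high v M g M (le_refl M) bg u h1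
            have h3 : M ≤ u ∧ u < M + g.count v := by
              by_contra hcon
              rw [if_neg hcon] at h2
              omega
            have h4 : 0 < (List.range' M k).count u := by
              rw [List.count_pos_iff, List.mem_range'_1]
              omega
            simp only [List.count_append, List.count_cons]
            omega
          · have h2 : u ≠ v := by
              rintro rfl
              rw [rnv_v u g M hvM] at hcu
              omega
            have h3 := rnv_low v g M u (by omega) h2
            have h4 := hmu u (hgB u (List.count_pos_iff.1 (by omega)))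
            simp only [List.count_append, List.count_cons] at h4 ⊢
            omega)
      have hf2 := RR.sub (fun c => if M ≤ c then [v] else [c]) hf
      have hrep : List.replicate k v ++ List.replicate (n * k - k) v =
          List.replicate (n * k) v := by
        rw [← List.replicate_add]
        congr 1
        omega
      have hC2 : ∀ a ∈ C2, a < M := fun a ha => bC a (List.mem_cons_of_mem _ ha)
      have hrl : ∀ a ∈ List.replicate (n * k - k) v, a < M := fun a ha => by
        rw [List.eq_of_mem_replicate ha]
        exact hvM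
      simp only [List.flatMap_append, List.flatMap_cons, flat_low bP, flat_low bQ, flat_low hC2,
        flat_low bA, flat_low bT, flat_low hrl, flat_range v M k, rnv_flat v M g M (le_refl M) bg,
        if_neg (show ¬ M ≤ 0 by omega), if_neg (show ¬ M ≤ 3 by omega),
        if_neg (show ¬ M ≤ v by omega), List.cons_append, List.nil_append, List.append_assoc]
        at hf2
      rw [← List.append_assoc (List.replicate k v), hrep] at hf2
      exact β.trans (β.trans (key [0, 3] fun u => rfl) hf2)
        (RR.symm (key [3, 0] fun u => (List.Perm.swap 0 3 []).count_eq u))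

end Pool.Agent.MWEN.H66
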