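import Pool.Agent.Helper41_MWEN.SMA
import Pool.Agent.Helper41_MWEN.SWO
import Pool.Agent.Helper41_MWEN.PMV
import Pool.Agent.Helper41_MWEN.XCH
import Pool.Agent.Helper41_MWEN.CPR
import Pool.Agent.Helper41_MWEN.SWI
import Pool.Agent.Helper41_MWEN.SWT
import Pool.Agent.Helper41_MWEN.NFH
import Pool.Agent.Helper41_MWEN.CLM
import Pool.Agent.Helper41_MWEN.FST
import Pool.Agent.Helper41_MWEN.SEP
import Pool.Agent.Helper41_MWEN.STA
import Pool.Agent.Helper41_MWEN.STB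
import Pool.Agent.Helper41_MWEN.RED
import Pool.Agent.Helper41_MWEN.MIE
import Pool.Agent.Helper41_MWEN.EEA
import Pool.Agent.Helper41_MWEN.FAL
import Pool.Agent.Helper11_MWE.ASM
import Pool.Agent.MWGR.Defs

/-!
# F and F' for all words over IT: the assembly

`flrN`: for all `n ≥ 1`, over a modular lattice with `xyx` an isoterm, if `x^n` can be inserted
between two occurrences of `x` (without simple letters between them), and not both `S1` and `S2`
(and the same for the mirror image), then `F` and `F'` hold for all words.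
-/

set_option autoImplicit false

namespace Pool.Agent.MWEN

open Pool.Agent.Helper14_MV Pool.Agent.Helper2_MV Pool.Agent.MVD Pool.Agent.MWE

theorem smaF : SmaStmt := H27.sma
theorem swoF : SwoStmt := H7.swo smaF MWE.H11.locF
theorem pmvF : PmvStmt := H6.pmv MWE.H11.plmF swoF
theorem xchF : XchStmt := H66.xch smaF
theorem cprF : CprStmt := H19.cpr MWE.H11.basF MWE.H11.traF pmvF xchF
theorem swiF : SwiStmt := H36.swi pmvF
theorem swtF : SwtStmt := H32.swt smaF MWE.H11.locF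
theorem nfhF : NfhStmt := H76.nfh cprF swiF
theorem clmF : ClmStmt := H46.clm MWE.H11.plmF MWE.H11.fceF MWE.H11.basF MWE.H11.traF pmvF cprF
  swiF swtF nfhF
theorem fstF : FstStmt := H81F.fst MWE.H11.dcmF MWE.H11.basF cprF nfhF
theorem sepF : SepStmt := H3.sep MWE.H11.basF
theorem staF : StaStmt := H86.sta MWE.H11.dcmF MWE.H11.splF sepF fstF clmF cprF
theorem stbF : StbStmt := H7.stb MWE.H11.fceF MWE.H11.fabF MWE.H11.splF sepF fstF MWE.H11.nxlF
theorem redF : RedStmt := H16.red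
theorem mieF : MieStmt := H98.mie
theorem eeaF : EeaStmt := H2.eea MWE.H11.fabF staF stbF MWE.H11.pnaF
/-- **F and F' for all words over IT** -/
theorem falF : FalStmt := H13.fal redF mieF eeaF

/-- **F and F' for all words over IT** in the notation of the final theorem -/
theorem flrN (n : ℕ) (hn : 1 ≤ n) (β : FIC) (hM : ModF β) (h3 : Iso3 β)
    (hI : MWGR.It n (RR β)) (h1 : ¬ (MWZ.S1 (RR β) ∧ MWZ.S2 (RR β)))
    (h2 : ¬ (MWZ.S1 (RR (FIC.op β)) ∧ MWZ.S2 (RR (FIC.op β)))) :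
    MWZ.F (RR β) ∧ MWZ.F' (RR β) := by
  rw [MWE.H11.s1_iff, MWE.H11.s2_iff] at h1
  rw [MWE.H11.s1op_iff, MWE.H11.s2op_iff] at h2
  have h4 : ¬ S2 β ∨ (S2 β ∧ ¬ S1 β ∧ ¬ S3 β) := by
    by_cases h : S2 β
    · exact Or.inr ⟨h, fun h' => h1 ⟨h', h⟩, fun h' => h2 ⟨h', h⟩⟩
    · exact Or.inl h
  obtain ⟨hl, hr⟩ := MWE.H11.lxrF β hM h3 h4
  exact falF β ⟨hM, h3, ⟨n, hn, hI⟩, hl, hr⟩

/-- the same with `Lx`, `Rx` as hypotheses -/
theorem flrL (n : ℕ) (hn : 1 ≤ n) (β : FIC) (hM : ModF β) (h3 : Iso3 β)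
    (hI : MWGR.It n (RR β)) (hl : Lx β) (hr : Rx β) : MWZ.F (RR β) ∧ MWZ.F' (RR β) :=
  falF β ⟨hM, h3, ⟨n, hn, hI⟩, hl, hr⟩

end Pool.Agent.MWEN
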