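import Pool.Agent.MWE.Stmts

/-!
# The identities F and F' for all words (MP_23468a_al) without residue crossing: definitions

`β` is a fully invariant congruence.  THEOREM: if `xyx` is an isoterm, the lattice above `β` is
modular, `p x w w' x q ≈ p x w x^n w' x q` (words `w`, `w'` without simple letters),
`xytxy ≈ yxtxy`, `xytxy ≈ xytyx`, then `p xy q x c y r ≈ p yx q x c y r` and its mirror image hold for
all words `c` whose letters are multiple.  The proof is the one of block MWE (definitions in
`MWE/Defs.lean`); the measure of a chain is (number of repeated letters, number of letters) in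
lexicographic order.
-/

set_option autoImplicit false

namespace Pool.Agent.MWEN

open Pool.Agent.Helper14_MV Pool.Agent.Helper2_MV Pool.Agent.MVD Pool.Agent.MWE

/-- `c'` is smaller than `c` -/
def Sm (c' c : List ℕ) : Prop := nr c' < nr c ∨ (nr c' ≤ nr c ∧ nd c' < nd c)

/-- `x w w' x ≈ x w x^n w' x`, no simple letters in `w`, `w'` -/
def I2 (β : FIC) : Prop := ∃ n : ℕ, 1 ≤ n ∧ ∀ (p w w' q : List ℕ) (x : ℕ),
  Mult (w ++ w') (p ++ x :: (w ++ (w' ++ x :: q))) →
    RR β (p ++ x :: (w ++ (w' ++ x :: q)))
      (p ++ x :: (w ++ (List.replicate n x ++ (w' ++ x :: q))))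

/-- the induction hypothesis -/
def IH (β : FIC) (c : List ℕ) : Prop := ∀ c', Sm c' c → FC β c' ∧ ZC β c'

/-- the general hypotheses -/
structure Hy (β : FIC) : Prop where
  md : ModF β
  i3 : Iso3 β
  i2 : I2 β
  lx : Lx β
  rx : Rx β

/-- the situation in the induction step (proof by contradiction) -/
structure Sit (β : FIC) (m : ℕ) (R c : List ℕ) : Prop where
  i3 : Iso3 β
  i2 : I2 β
  ih : IH β c
  can : Can m c
  ne : c ≠ []
  pR : R.Perm (List.range (m + 2))
  b01 : Bfr R 0 1
  no : ¬ EE β R c

end Pool.Agent.MWEN
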