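import Pool.Agent.Helper41_MWEN.Stmts

/-!
# MWE, row SMA: measure facts
-/

set_option autoImplicit false

namespace Pool.Agent.MWEN.H27

open Pool.Agent.Helper14_MV Pool.Agent.Helper2_MV Pool.Agent.MVD Pool.Agent.MWE

theorem rep_lt {c' c : List ℕ} {b : ℕ} (h : ∀ u, 2 ≤ c'.count u → 2 ≤ c.count u) (hb : b ∈ c)
    (h2 : 2 ≤ c.count b) (hb' : ¬ 2 ≤ c'.count b) : nr c' < nr c := by
  unfold nr
  apply Finset.card_lt_card
  rw [Finset.ssubset_iff_of_subset]
  · refine ⟨b, ?_, ?_⟩
    · rw [Finset.mem_filter, List.mem_toFinset]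
      exact ⟨hb, h2⟩
    · rw [Finset.mem_filter]
      exact fun hh => hb' hh.2
  · intro u hu
    rw [Finset.mem_filter] at hu ⊢
    have h1 := h u hu.2
    refine ⟨?_, h1⟩
    rw [List.mem_toFinset]
    exact List.count_pos_iff.1 (by omega)

theorem sma : SmaStmt := by
  intro m c hc
  have h0 : 0 ∉ c := by
    intro h
    rcases hc.lo 0 h with ⟨d, _, hd⟩ | ⟨_, h6, _⟩
    · omega
    · omega
  have h3 : 3 ∉ c := by
    intro h
    rcases hc.lo 3 h with ⟨d, _, hd⟩ | ⟨_, h6, _⟩
    · omega
    · omega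
  have lt2 : ∀ u ∈ c, (∀ d < m, u ≠ 3 * d + 1) → 2 ≤ c.count u := by
    intro u hu hl
    rcases hc.lo u hu with ⟨d, hd, rfl⟩ | ⟨_, _, h4⟩
    · exact absurd rfl (hl d hd)
    · exact h4
  refine ⟨?_, ?_, ?_⟩
  · intro g c' a b hg g0 g3 gl hinf hab ha hb h2b ha' hb'
    left
    apply rep_lt (b := b) _ hb h2b
    · rw [List.count_eq_zero_of_not_mem hb']
      omega
    · intro u hu
      have hug : 2 ≤ g.count u := le_trans hu (hinf.sublist.count_le u)
      have hmem : u ∈ g := List.count_pos_iff.1 (by omega)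
      rcases hg u hmem with h | h | h
      · subst h; omega
      · subst h; omega
      · rcases hc.lo u h with ⟨d, hd, rfl⟩ | ⟨_, _, h4⟩
        · have := gl d hd
          omega
        · exact h4
  · intro c' a hsub hl ha ha'
    right
    constructor
    · unfold nr
      apply Finset.card_le_card
      intro u hu
      rw [Finset.mem_filter, List.mem_toFinset] at hu ⊢
      refine ⟨hsub u hu.1, lt2 u (hsub u hu.1) ?_⟩
      rintro d hd rfl
      have := hl d hd
      omega
    · unfold nd
      apply Finset.card_lt_card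
      rw [Finset.ssubset_iff_of_subset]
      · exact ⟨a, List.mem_toFinset.2 ha, fun h => ha' (List.mem_toFinset.1 h)⟩
      · intro u hu
        rw [List.mem_toFinset] at hu ⊢
        exact hsub u hu
  · intro c' b hsub hb h2 hb'
    left
    apply rep_lt (b := b) _ hb h2
    · omega
    · intro u hu
      obtain ⟨h5, h6⟩ := hsub u hu
      exact lt2 u h5 h6

end Pool.Agent.MWEN.H27
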